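import Pool.Agent.Taut.Metric

/-!
# Geodesics and exponential map of the metric `dx² + dy² / (1 + x²)` on `ℝ²`
-/

open MeasureTheory Set Filter Topology
open scoped ContDiff

noncomputable section

namespace Pool.Agent.Taut

/-- Uniqueness for `z'' = -b² z`. -/
lemma ode_unique {z z' : ℝ → ℝ} (b : ℝ) (h1 : ∀ t, HasDerivAt z (z' t) t)
    (h2 : ∀ t, HasDerivAt z' (-(b ^ 2) * z t) t) (h0 : z 0 = 0) (h0' : z' 0 = 0) :
    ∀ t, z t = 0 := by
  have e : ∀ t, HasDerivAt (fun t => z' t ^ 2 + b ^ 2 * z t ^ 2) 0 t := by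
    intro t
    have h3 := ((h2 t).fun_pow 2).fun_add (((h1 t).fun_pow 2).const_mul (b ^ 2))
    refine h3.congr_deriv ?_
    simp
    ring
  have e2 : ∀ t, z' t ^ 2 + b ^ 2 * z t ^ 2 = 0 := by
    intro t
    have := is_const_of_deriv_eq_zero (fun t => (e t).differentiableAt) (fun t => (e t).deriv) t 0
    simpa [h0, h0'] using this
  have e3 : ∀ t, z' t = 0 := by
    intro t
    have h4 := e2 t
    have h5 : 0 ≤ b ^ 2 * z t ^ 2 := by positivity
    have h6 : 0 ≤ z' t ^ 2 := by positivity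
    have h7 : z' t ^ 2 = 0 := by linarith
    exact pow_eq_zero_iff (two_ne_zero) |>.1 h7
  intro t
  have := is_const_of_deriv_eq_zero (fun t => (h1 t).differentiableAt)
    (fun t => (h1 t).deriv.trans (e3 t)) t 0
  rw [this, h0]

/-- coordinates of a smooth curve -/
lemma hasDerivAt_coord {γ : ℝ → V 2} (hγ : ContDiff ℝ ∞ γ) (i : Fin 2) (t : ℝ) :
    HasDerivAt (fun s => γ s i) (deriv γ t i) t := by
  have h := (hγ.differentiable (by simp) t).hasDerivAt
  exact (pr i).hasFDerivAt.comp_hasDerivAt t h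

lemma geodesic_equations {γ : ℝ → V 2} (hγ : G0.IsGeodesic γ) :
    (∀ t, HasDerivAt (fun s => deriv γ s 0)
      (-(γ t 0) * (deriv γ t 1 / (1 + γ t 0 ^ 2)) ^ 2) t) ∧
    (∀ t, HasDerivAt (fun s => deriv γ s 1 / (1 + γ s 0 ^ 2)) 0 t) := by
  constructor
  · intro t
    have h := hγ.2 t (EuclideanSpace.single 0 1)
    rw [fderiv_G0_inner] at h
    simp only [G0_inner] at h
    convert h using 1
    · simp
    · simp
      have := (one_add_sq_pos (γ t 0)).ne'
      field_simp
  · intro t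
    have h := hγ.2 t (EuclideanSpace.single 1 1)
    rw [fderiv_G0_inner] at h
    simp only [G0_inner] at h
    convert h using 1
    · simp
    · simp

/-- The geodesics of `G0` starting from a point of the axis `x = 0`: the momentum is constant and
the first coordinate is a solution of `x'' = - b² x`. -/
lemma geodesic_from_axis {γ : ℝ → V 2} (hγ : G0.IsGeodesic γ) (h0 : γ 0 0 = 0) :
    (∀ t, HasDerivAt (fun s => γ s 1) (deriv γ 0 1 * (1 + γ t 0 ^ 2)) t) ∧
    (∀ t, HasDerivAt (fun s => deriv γ s 0) (-(deriv γ 0 1) ^ 2 * γ t 0) t) := by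
  obtain ⟨h1, h2⟩ := geodesic_equations hγ
  have h3 : ∀ t, deriv γ t 1 / (1 + γ t 0 ^ 2) = deriv γ 0 1 := by
    intro t
    have := is_const_of_deriv_eq_zero (fun t => (h2 t).differentiableAt) (fun t => (h2 t).deriv) t 0
    simpa [h0] using this
  constructor
  · intro t
    have h4 := hasDerivAt_coord hγ.1 1 t
    have h5 : deriv γ t 1 = deriv γ 0 1 * (1 + γ t 0 ^ 2) := by
      rw [← h3 t]
      have := (one_add_sq_pos (γ t 0)).ne'
      field_simp
    rwa [h5] at h4
  · intro t
    have := h1 t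
    rw [h3 t] at this
    convert this using 1
    ring

/-- The first coordinate of the explicit geodesic, `b ≠ 0`. -/
def gx (a b t : ℝ) : ℝ := a * Real.sin (b * t) / b

/-- The second coordinate of the explicit geodesic, `b ≠ 0`. -/
def gy (η a b t : ℝ) : ℝ := η + b * t + a ^ 2 / b * (t / 2 - Real.sin (2 * b * t) / (4 * b))

lemma hasDerivAt_gx {b : ℝ} (hb : b ≠ 0) (a t : ℝ) :
    HasDerivAt (gx a b) (a * Real.cos (b * t)) t := by
  have h1 : HasDerivAt (fun t => b * t) b t := by simpa using (hasDerivAt_id t).const_mul b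
  have h2 := ((h1.sin.const_mul a).div_const b)
  refine h2.congr_deriv ?_
  field_simp

lemma hasDerivAt_gx' (a b t : ℝ) :
    HasDerivAt (fun t => a * Real.cos (b * t)) (-(b * (a * Real.sin (b * t)))) t := by
  have h1 : HasDerivAt (fun t => b * t) b t := by simpa using (hasDerivAt_id t).const_mul b
  have h2 := (h1.cos.const_mul a)
  refine h2.congr_deriv ?_
  ring

lemma hasDerivAt_gy {b : ℝ} (hb : b ≠ 0) (η a t : ℝ) :
    HasDerivAt (gy η a b) (b * (1 + gx a b t ^ 2)) t := by
  have h1 : HasDerivAt (fun t => b * t) b t := by simpa using (hasDerivAt_id t).const_mul b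
  have h1' : HasDerivAt (fun t => 2 * b * t) (2 * b) t := by
    simpa using (hasDerivAt_id t).const_mul (2 * b)
  have h2 := ((h1'.sin).div_const (4 * b))
  have h3 := ((hasDerivAt_id' t).div_const 2).fun_sub h2
  have h4 := (h1.const_add η).fun_add (h3.const_mul (a ^ 2 / b))
  refine h4.congr_deriv ?_
  rw [gx, show 2 * b * t = 2 * (b * t) by ring, Real.cos_two_mul]
  have h5 : Real.sin (b * t) ^ 2 = 1 - Real.cos (b * t) ^ 2 := by
    rw [← Real.sin_sq_add_cos_sq (b * t)]; ring
  rw [div_pow, mul_pow, h5]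
  field_simp
  ring

/-- Uniqueness of the geodesics from a point of the axis. -/
lemma geodesic_unique {γ : ℝ → V 2} (hγ : G0.IsGeodesic γ) {η a b : ℝ} (hb : b ≠ 0)
    (h00 : γ 0 0 = 0) (h01 : γ 0 1 = η) (ha : deriv γ 0 0 = a) (hb' : deriv γ 0 1 = b) (t : ℝ) :
    γ t 0 = gx a b t ∧ γ t 1 = gy η a b t := by
  obtain ⟨h1, h2⟩ := geodesic_from_axis hγ h00
  rw [hb'] at h1 h2
  have h3 : ∀ t, γ t 0 - gx a b t = 0 := by
    refine ode_unique (z := fun t => γ t 0 - gx a b t)
      (z' := fun t => deriv γ t 0 - a * Real.cos (b * t)) b ?_ ?_ ?_ ?_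
    · intro t
      exact (hasDerivAt_coord hγ.1 0 t).fun_sub (hasDerivAt_gx hb a t)
    · intro t
      refine ((h2 t).fun_sub (hasDerivAt_gx' a b t)).congr_deriv ?_
      unfold gx
      field_simp
      ring
    · simp [gx, h00]
    · simp [ha]
  have h3' : ∀ t, γ t 0 = gx a b t := fun t => sub_eq_zero.1 (h3 t)
  refine ⟨h3' t, ?_⟩
  have h4 : ∀ t, HasDerivAt (fun t => γ t 1 - gy η a b t) 0 t := by
    intro t
    have := (h1 t).fun_sub (hasDerivAt_gy hb η a t)
    rw [h3' t, sub_self] at this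
    exact this
  have := is_const_of_deriv_eq_zero (fun t => (h4 t).differentiableAt) (fun t => (h4 t).deriv) t 0
  simp only [h01] at this
  have h5 : gy η a b 0 = η := by simp [gy]
  rw [h5] at this
  linarith

/-- Uniqueness of the geodesics from a point of the axis, orthogonal to the axis. -/
lemma geodesic_unique_zero {γ : ℝ → V 2} (hγ : G0.IsGeodesic γ) {η a : ℝ}
    (h00 : γ 0 0 = 0) (h01 : γ 0 1 = η) (ha : deriv γ 0 0 = a) (hb' : deriv γ 0 1 = 0) (t : ℝ) :
    γ t 0 = a * t ∧ γ t 1 = η := by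
  obtain ⟨h1, h2⟩ := geodesic_from_axis hγ h00
  rw [hb'] at h1 h2
  constructor
  · have h3 : ∀ t, γ t 0 - a * t = 0 := by
      refine ode_unique (z := fun t => γ t 0 - a * t)
        (z' := fun t => deriv γ t 0 - a) 0 ?_ ?_ ?_ ?_
      · intro t
        exact (hasDerivAt_coord hγ.1 0 t).fun_sub (by simpa using (hasDerivAt_id t).const_mul a)
      · intro t
        refine ((h2 t).fun_sub (hasDerivAt_const t a)).congr_deriv ?_
        ring
      · simp [h00]
      · simp [ha]
    exact sub_eq_zero.1 (h3 t)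
  · have h4 : ∀ t, HasDerivAt (fun t => γ t 1) 0 t := by
      intro t
      simpa using h1 t
    have := is_const_of_deriv_eq_zero (fun t => (h4 t).differentiableAt)
      (fun t => (h4 t).deriv) t 0
    simpa [h01] using this

/-- The explicit geodesic is a geodesic. -/
lemma isGeodesic_explicit {b : ℝ} (hb : b ≠ 0) (η a : ℝ) :
    G0.IsGeodesic (fun t => !₂[gx a b t, gy η a b t]) ∧
      (∀ t, deriv (fun t => (!₂[gx a b t, gy η a b t] : V 2)) t
        = !₂[a * Real.cos (b * t), b * (1 + gx a b t ^ 2)]) := by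
  have hcd : ContDiff ℝ ∞ (fun t => (!₂[gx a b t, gy η a b t] : V 2)) := by
    rw [contDiff_euclidean]
    intro i
    fin_cases i
    · show ContDiff ℝ ∞ (fun t => gx a b t)
      unfold gx
      fun_prop
    · show ContDiff ℝ ∞ (fun t => gy η a b t)
      unfold gy
      fun_prop
  have hd : ∀ t, deriv (fun t => (!₂[gx a b t, gy η a b t] : V 2)) t
        = !₂[a * Real.cos (b * t), b * (1 + gx a b t ^ 2)] := by
    intro t
    apply V2_ext
    · have h1 := hasDerivAt_coord hcd 0 t
      exact h1.unique (hasDerivAt_gx hb a t)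
    · have h1 := hasDerivAt_coord hcd 1 t
      exact h1.unique (hasDerivAt_gy hb η a t)
  refine ⟨⟨hcd, ?_⟩, hd⟩
  intro t w
  rw [fderiv_G0_inner]
  simp only [G0_inner, hd]
  have h1 : HasDerivAt (fun s => a * Real.cos (b * s) * w 0 + b * w 1)
      (-(b * (a * Real.sin (b * t))) * w 0) t :=
    ((hasDerivAt_gx' a b t).mul_const (w 0)).add_const _
  convert h1 using 1
  · funext s
    have := (one_add_sq_pos (gx a b s)).ne'
    simp
    field_simp
  · have := (one_add_sq_pos (gx a b t)).ne'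
    simp
    rw [gx] at *
    field_simp

lemma isGeodesic_explicit_zero (η a : ℝ) :
    G0.IsGeodesic (fun t => !₂[a * t, η]) ∧
      (∀ t, deriv (fun t => (!₂[a * t, η] : V 2)) t = !₂[a, 0]) := by
  have hcd : ContDiff ℝ ∞ (fun t => (!₂[a * t, η] : V 2)) := by
    rw [contDiff_euclidean]
    intro i
    fin_cases i
    · show ContDiff ℝ ∞ (fun t => a * t)
      fun_prop
    · show ContDiff ℝ ∞ (fun t : ℝ => η)
      fun_prop
  have hd : ∀ t, deriv (fun t => (!₂[a * t, η] : V 2)) t = !₂[a, 0] := by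
    intro t
    apply V2_ext
    · have h1 := hasDerivAt_coord hcd 0 t
      refine h1.unique ?_
      show HasDerivAt (fun s => a * s) a t
      simpa using (hasDerivAt_id t).const_mul a
    · have h1 := hasDerivAt_coord hcd 1 t
      exact h1.unique (hasDerivAt_const t η)
  refine ⟨⟨hcd, ?_⟩, hd⟩
  intro t w
  rw [fderiv_G0_inner]
  simp only [G0_inner, hd]
  simp
  exact hasDerivAt_const _ _

/-- The exponential map at a point of the axis. -/
lemma expMap_axis {b : ℝ} (hb : b ≠ 0) (η a : ℝ) {q v : V 2} (hq0 : q 0 = 0) (hq1 : q 1 = η)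
    (hv0 : v 0 = a) (hv1 : v 1 = b) :
    G0.expMap q v = !₂[gx a b 1, gy η a b 1] := by
  have hex : ∃ γ : ℝ → V 2, G0.IsGeodesic γ ∧ γ 0 = q ∧ deriv γ 0 = v := by
    obtain ⟨h1, h2⟩ := isGeodesic_explicit hb η a
    refine ⟨_, h1, ?_, ?_⟩
    · apply V2_ext
      · simp [gx, hq0]
      · simp [gy, hq1]
    · rw [h2]
      apply V2_ext
      · simp [hv0]
      · simp [gx, hv1]
  rw [RMetric.expMap, dif_pos hex]
  obtain ⟨h1, h2, h3⟩ := hex.choose_spec
  have h4 := geodesic_unique h1 (η := η) (a := a) hb (by rw [h2, hq0]) (by rw [h2, hq1])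
    (by rw [h3, hv0]) (by rw [h3, hv1]) 1
  exact V2_ext h4.1 h4.2

lemma expMap_axis_zero (η a : ℝ) {q v : V 2} (hq0 : q 0 = 0) (hq1 : q 1 = η)
    (hv0 : v 0 = a) (hv1 : v 1 = 0) :
    G0.expMap q v = !₂[a, η] := by
  have hex : ∃ γ : ℝ → V 2, G0.IsGeodesic γ ∧ γ 0 = q ∧ deriv γ 0 = v := by
    obtain ⟨h1, h2⟩ := isGeodesic_explicit_zero η a
    refine ⟨_, h1, ?_, ?_⟩
    · apply V2_ext
      · simp [hq0]
      · simp [hq1]
    · rw [h2]
      apply V2_ext
      · simp [hv0]
      · simp [hv1]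
  rw [RMetric.expMap, dif_pos hex]
  obtain ⟨h1, h2, h3⟩ := hex.choose_spec
  have h4 := geodesic_unique_zero h1 (η := η) (a := a) (by rw [h2, hq0]) (by rw [h2, hq1])
    (by rw [h3, hv0]) (by rw [h3, hv1]) 1
  refine V2_ext ?_ ?_
  · simpa using h4.1
  · simpa using h4.2

end Pool.Agent.Taut
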