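import Pool.Agent.Taut.Metric
import Pool.Agent.Taut.Geodesic

/-!
# The metric `dx² + dy² / (1 + x²)` on `ℝ²` is complete
-/

open MeasureTheory Set Filter Topology
open scoped ContDiff ENNReal

noncomputable section

namespace Pool.Agent.Taut

/-- the speed of a curve -/
def speed (γ : ℝ → V 2) (t : ℝ) : ℝ := √(G0.inner (γ t) (deriv γ t) (deriv γ t))

lemma length_eq (γ : ℝ → V 2) : G0.length γ = ∫ t in (0:ℝ)..1, speed γ t := rfl

lemma speed_nonneg (γ : ℝ → V 2) (t : ℝ) : 0 ≤ speed γ t := Real.sqrt_nonneg _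

lemma abs_zero_le_speed (γ : ℝ → V 2) (t : ℝ) : |deriv γ t 0| ≤ speed γ t := by
  rw [speed]
  apply Real.abs_le_sqrt
  rw [G0_inner]
  have : 0 ≤ deriv γ t 1 * deriv γ t 1 / (1 + γ t 0 ^ 2) :=
    div_nonneg (mul_self_nonneg _) (one_add_sq_pos _).le
  nlinarith

lemma abs_one_le_speed (γ : ℝ → V 2) (t : ℝ) {R : ℝ} (hR : |γ t 0| ≤ R) :
    |deriv γ t 1| ≤ (1 + R) * speed γ t := by
  have hR0 : 0 ≤ R := (abs_nonneg _).trans hR
  have h1 : |deriv γ t 1| / (1 + R) ≤ speed γ t := by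
    rw [speed]
    apply Real.le_sqrt_of_sq_le
    rw [G0_inner, div_pow, sq_abs]
    have h2 : deriv γ t 1 ^ 2 / (1 + R) ^ 2 ≤ deriv γ t 1 * deriv γ t 1 / (1 + γ t 0 ^ 2) := by
      rw [← sq]
      apply div_le_div_of_nonneg_left (sq_nonneg _) (one_add_sq_pos _)
      have : γ t 0 ^ 2 ≤ R ^ 2 := by
        rw [← sq_abs]
        gcongr
      nlinarith
    have h3 : 0 ≤ deriv γ t 0 * deriv γ t 0 := mul_self_nonneg _
    linarith
  rw [div_le_iff₀ (by positivity)] at h1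
  linarith

lemma hasDerivAt_coord_one {γ : ℝ → V 2} (hγ : ContDiff ℝ 1 γ) (i : Fin 2) (t : ℝ) :
    HasDerivAt (fun s => γ s i) (deriv γ t i) t := by
  have h := (hγ.differentiable (by simp) t).hasDerivAt
  exact (pr i).hasFDerivAt.comp_hasDerivAt t h

lemma continuous_deriv_coord {γ : ℝ → V 2} (hγ : ContDiff ℝ 1 γ) (i : Fin 2) :
    Continuous (fun t => deriv γ t i) :=
  (pr i).continuous.comp (hγ.continuous_deriv (by simp))

lemma continuous_speed {γ : ℝ → V 2} (hγ : ContDiff ℝ 1 γ) : Continuous (speed γ) := by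
  unfold speed
  apply Real.continuous_sqrt.comp
  simp only [G0_inner]
  have h0 : Continuous (fun t => γ t 0) := (pr 0).continuous.comp hγ.continuous
  have h1 := continuous_deriv_coord hγ 0
  have h2 := continuous_deriv_coord hγ 1
  exact (h1.mul h1).add ((h2.mul h2).div (continuous_const.add (h0.pow 2))
    (fun t => (one_add_sq_pos _).ne'))

lemma abs_sub_le_length {γ : ℝ → V 2} (hγ : ContDiff ℝ 1 γ) {t : ℝ} (ht : t ∈ Icc (0:ℝ) 1) :
    |γ t 0 - γ 0 0| ≤ G0.length γ := by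
  have h1 : ∫ s in (0:ℝ)..t, deriv γ s 0 = γ t 0 - γ 0 0 :=
    intervalIntegral.integral_eq_sub_of_hasDerivAt (fun s _ => hasDerivAt_coord_one hγ 0 s)
      ((continuous_deriv_coord hγ 0).intervalIntegrable _ _)
  rw [← h1, length_eq]
  calc |∫ s in (0:ℝ)..t, deriv γ s 0| ≤ ∫ s in (0:ℝ)..t, |deriv γ s 0| :=
        intervalIntegral.abs_integral_le_integral_abs ht.1
    _ ≤ ∫ s in (0:ℝ)..t, speed γ s := by
        apply intervalIntegral.integral_mono_on ht.1
        · exact (continuous_deriv_coord hγ 0).abs.intervalIntegrable _ _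
        · exact (continuous_speed hγ).intervalIntegrable _ _
        · intro s _; exact abs_zero_le_speed γ s
    _ ≤ ∫ s in (0:ℝ)..1, speed γ s := by
        apply intervalIntegral.integral_mono_interval le_rfl ht.1 ht.2
        · exact ae_of_all _ (fun s => speed_nonneg _ _)
        · exact (continuous_speed hγ).intervalIntegrable _ _

lemma abs_sub_one_le_length {γ : ℝ → V 2} (hγ : ContDiff ℝ 1 γ) {R : ℝ}
    (hR : ∀ t ∈ Icc (0:ℝ) 1, |γ t 0| ≤ R) :
    |γ 1 1 - γ 0 1| ≤ (1 + R) * G0.length γ := by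
  have h1 : ∫ s in (0:ℝ)..1, deriv γ s 1 = γ 1 1 - γ 0 1 :=
    intervalIntegral.integral_eq_sub_of_hasDerivAt (fun s _ => hasDerivAt_coord_one hγ 1 s)
      ((continuous_deriv_coord hγ 1).intervalIntegrable _ _)
  rw [← h1, length_eq, ← intervalIntegral.integral_const_mul]
  calc |∫ s in (0:ℝ)..1, deriv γ s 1| ≤ ∫ s in (0:ℝ)..1, |deriv γ s 1| :=
        intervalIntegral.abs_integral_le_integral_abs zero_le_one
    _ ≤ ∫ s in (0:ℝ)..1, (1 + R) * speed γ s := by
        apply intervalIntegral.integral_mono_on zero_le_one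
        · exact (continuous_deriv_coord hγ 1).abs.intervalIntegrable _ _
        · exact ((continuous_speed hγ).const_mul _).intervalIntegrable _ _
        · intro s hs; exact abs_one_le_speed γ s (hR s hs)

lemma length_nonneg (γ : ℝ → V 2) : 0 ≤ G0.length γ := by
  rw [length_eq]
  exact intervalIntegral.integral_nonneg zero_le_one (fun t _ => speed_nonneg _ _)

lemma rdist_bddBelow (x y : V 2) : BddBelow {l : ℝ | ∃ γ : ℝ → V 2, ContDiff ℝ 1 γ ∧ γ 0 = x ∧
    γ 1 = y ∧ l = G0.length γ} :=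
  ⟨0, by rintro l ⟨γ, -, -, -, rfl⟩; exact length_nonneg γ⟩

lemma rdist_nonneg (x y : V 2) : 0 ≤ G0.rdist x y :=
  Real.sInf_nonneg (by rintro l ⟨γ, -, -, -, rfl⟩; exact length_nonneg γ)

lemma segment_mem (x y : V 2) : ∃ l ≤ ‖y - x‖, ∃ γ : ℝ → V 2, ContDiff ℝ 1 γ ∧ γ 0 = x ∧
    γ 1 = y ∧ l = G0.length γ := by
  have hd : ∀ t : ℝ, HasDerivAt (fun t : ℝ => x + t • (y - x)) (y - x) t := by
    intro t
    simpa using ((hasDerivAt_id t).smul_const (y - x)).const_add x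
  refine ⟨_, ?_, fun t : ℝ => x + t • (y - x), by fun_prop, by simp, by simp, rfl⟩
  rw [length_eq]
  have h1 : ∀ t, speed (fun t : ℝ => x + t • (y - x)) t ≤ ‖y - x‖ := by
    intro t
    rw [speed, (hd t).deriv, EuclideanSpace.norm_eq, Fin.sum_univ_two]
    apply Real.sqrt_le_sqrt
    rw [G0_inner]
    have h2 : (y - x) 1 * (y - x) 1 / (1 + (x + t • (y - x)) 0 ^ 2) ≤ (y - x) 1 * (y - x) 1 :=
      div_le_self (mul_self_nonneg _) (by nlinarith [sq_nonneg ((x + t • (y - x)) 0)])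
    simp only [Real.norm_eq_abs, sq_abs]
    nlinarith
  calc ∫ t in (0:ℝ)..1, speed (fun t : ℝ => x + t • (y - x)) t
      ≤ ∫ t in (0:ℝ)..1, ‖y - x‖ := by
        apply intervalIntegral.integral_mono_on zero_le_one
        · exact (continuous_speed (by fun_prop)).intervalIntegrable _ _
        · simp
        · intro t _; exact h1 t
    _ = ‖y - x‖ := by simp

lemma rdist_le_norm (x y : V 2) : G0.rdist x y ≤ ‖y - x‖ := by
  obtain ⟨l, hl, hmem⟩ := segment_mem x y
  exact (csInf_le (rdist_bddBelow x y) hmem).trans hl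

lemma exists_path_of_rdist_lt {x y : V 2} {ε : ℝ} (h : G0.rdist x y < ε) :
    ∃ γ : ℝ → V 2, ContDiff ℝ 1 γ ∧ γ 0 = x ∧ γ 1 = y ∧ G0.length γ < ε := by
  obtain ⟨l, -, hmem⟩ := segment_mem x y
  obtain ⟨l, ⟨γ, h1, h2, h3, rfl⟩, h4⟩ := exists_lt_of_csInf_lt ⟨l, hmem⟩ h
  exact ⟨γ, h1, h2, h3, h4⟩

lemma coord_le_of_rdist_lt {x y : V 2} {ε R : ℝ} (hε : ε ≤ 1) (hx : |x 0| ≤ R)
    (h : G0.rdist x y < ε) : |y 0 - x 0| ≤ ε ∧ |y 1 - x 1| ≤ (2 + R) * ε := by
  obtain ⟨γ, h1, h2, h3, h4⟩ := exists_path_of_rdist_lt h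
  have hR0 : 0 ≤ R := (abs_nonneg _).trans hx
  constructor
  · have := abs_sub_le_length h1 (t := 1) (by simp)
    rw [h2, h3] at this
    linarith
  · have h5 : ∀ t ∈ Icc (0:ℝ) 1, |γ t 0| ≤ R + 1 := by
      intro t ht
      have h6 := abs_sub_le_length h1 ht
      rw [h2] at h6
      calc |γ t 0| = |(γ t 0 - x 0) + x 0| := by ring_nf
        _ ≤ |γ t 0 - x 0| + |x 0| := abs_add_le _ _
        _ ≤ R + 1 := by linarith
    have h7 := abs_sub_one_le_length h1 h5
    rw [h2, h3] at h7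
    calc |y 1 - x 1| ≤ (1 + (R + 1)) * G0.length γ := h7
      _ ≤ (1 + (R + 1)) * ε := by gcongr
      _ = (2 + R) * ε := by ring

lemma norm_le_two (v : V 2) : ‖v‖ ≤ |v 0| + |v 1| := by
  rw [EuclideanSpace.norm_eq, Fin.sum_univ_two]
  apply Real.sqrt_le_iff.2
  refine ⟨by positivity, ?_⟩
  simp only [Real.norm_eq_abs]
  nlinarith [abs_nonneg (v 0), abs_nonneg (v 1)]

lemma G0_complete : G0.Complete := by
  intro x hx
  obtain ⟨K1, hK1⟩ := hx 1 one_pos
  set R := |x K1 0| + 1 with hR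
  have hbound : ∀ i ≥ K1, |x i 0| ≤ R := by
    intro i hi
    have h1 := (coord_le_of_rdist_lt (R := |x K1 0|) le_rfl le_rfl (hK1 K1 le_rfl i hi)).1
    calc |x i 0| = |(x i 0 - x K1 0) + x K1 0| := by ring_nf
      _ ≤ |x i 0 - x K1 0| + |x K1 0| := abs_add_le _ _
      _ ≤ R := by linarith
  have hR0 : 0 ≤ R := by positivity
  have hcauchy : CauchySeq x := by
    rw [Metric.cauchySeq_iff]
    intro ε hε
    set δ := min 1 (ε / (2 * (3 + R))) with hδ
    have hδ0 : 0 < δ := lt_min one_pos (by positivity)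
    obtain ⟨K2, hK2⟩ := hx δ hδ0
    refine ⟨max K1 K2, fun i hi j hj => ?_⟩
    have h1 := coord_le_of_rdist_lt (min_le_left _ _) (hbound i (le_trans (le_max_left _ _) hi))
      (hK2 i (le_trans (le_max_right _ _) hi) j (le_trans (le_max_right _ _) hj))
    rw [dist_comm, dist_eq_norm]
    have h2 : δ ≤ ε / (2 * (3 + R)) := min_le_right _ _
    have h3 : (3 + R) * δ ≤ ε / 2 := by
      calc (3 + R) * δ ≤ (3 + R) * (ε / (2 * (3 + R))) := by gcongr
        _ = ε / 2 := by field_simp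
    calc ‖x j - x i‖ ≤ |(x j - x i) 0| + |(x j - x i) 1| := norm_le_two _
      _ = |x j 0 - x i 0| + |x j 1 - x i 1| := by simp
      _ ≤ δ + (2 + R) * δ := add_le_add h1.1 h1.2
      _ = (3 + R) * δ := by ring
      _ ≤ ε / 2 := h3
      _ < ε := by linarith
  obtain ⟨y, hy⟩ := cauchySeq_tendsto_of_complete hcauchy
  refine ⟨y, ?_⟩
  have h1 : Tendsto (fun k => ‖y - x k‖) atTop (𝓝 0) := by
    have := (tendsto_const_nhds (x := y)).sub hy
    simpa using this.norm
  exact squeeze_zero (fun k => rdist_nonneg _ _) (fun k => rdist_le_norm _ _) h1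

end Pool.Agent.Taut
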