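import Pool.Agent.Taut.Geodesic

/-!
# The point `(0, η + 4)` is not a focal point of `{(0, η)}`
-/

open MeasureTheory Set Filter Topology
open scoped ContDiff

noncomputable section

namespace Pool.Agent.Taut

lemma sin_four_ne_zero : Real.sin 4 ≠ 0 := by
  have h : Real.sin (4 - Real.pi) ≠ 0 := by
    apply ne_of_gt
    apply Real.sin_pos_of_pos_of_lt_pi
    · linarith [Real.pi_lt_four]
    · linarith [Real.pi_gt_three]
  rw [Real.sin_sub_pi] at h
  intro h'
  apply h
  rw [h']
  simp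

/-- The geodesics from `(0, η)` to `(0, η + 4)`: either vertical, or `b = π` and
`a² = 2 π (4 - π)`. -/
lemma exp_eq_cases {η a b : ℝ} (hb : b ≠ 0) (h0 : gx a b 1 = 0) (h1 : gy η a b 1 = η + 4) :
    (a = 0 ∧ b = 4) ∨ (a ≠ 0 ∧ b = Real.pi) := by
  by_cases ha : a = 0
  · left
    refine ⟨ha, ?_⟩
    subst ha
    simp [gy] at h1
    exact h1
  · right
    refine ⟨ha, ?_⟩
    have h2 : Real.sin b = 0 := by
      rw [gx, mul_one] at h0
      rcases div_eq_zero_iff.1 h0 with h | h
      · rcases mul_eq_zero.1 h with h | h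
        · exact absurd h ha
        · exact h
      · exact absurd h hb
    have h3 : Real.sin (2 * b) = 0 := by rw [Real.sin_two_mul, h2]; ring
    rw [gy, mul_one, mul_one, h3, zero_div, sub_zero] at h1
    have h4 : a ^ 2 = 2 * b * (4 - b) := by
      field_simp at h1
      linarith
    have h5 : 0 < a ^ 2 := by positivity
    have h6 : 0 < b * (4 - b) := by nlinarith
    have hbpos : 0 < b := by
      by_contra hneg
      push Not at hneg
      have : b * (4 - b) ≤ 0 := mul_nonpos_of_nonpos_of_nonneg hneg (by linarith)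
      linarith
    have hb4 : b < 4 := by
      by_contra hneg
      push Not at hneg
      have : b * (4 - b) ≤ 0 := mul_nonpos_of_nonneg_of_nonpos hbpos.le (by linarith)
      linarith
    -- `sin (b - π) = 0` and `-π < b - π < π`
    have h7 : Real.sin (b - Real.pi) = 0 := by rw [Real.sin_sub_pi, h2, neg_zero]
    have h8 := (Real.sin_eq_zero_iff_of_lt_of_lt (by linarith)
      (by linarith [Real.pi_gt_three])).1 h7
    linarith

lemma hasDerivAt_F1 {a b : ℝ → ℝ} {a' b' s : ℝ} (ha : HasDerivAt a a' s) (hb : HasDerivAt b b' s)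
    (hbne : b s ≠ 0) :
    HasDerivAt (fun s => gx (a s) (b s) 1)
      (a' * Real.sin (b s) / b s
        + a s * b' * (b s * Real.cos (b s) - Real.sin (b s)) / b s ^ 2) s := by
  unfold gx
  simp only [mul_one]
  refine ((ha.fun_mul hb.sin).fun_div hb hbne).congr_deriv ?_
  field_simp
  ring

lemma hasDerivAt_F2 {a b : ℝ → ℝ} {a' b' s : ℝ} (η : ℝ) (ha : HasDerivAt a a' s)
    (hb : HasDerivAt b b' s) (hbne : b s ≠ 0) :
    ∃ K : ℝ, HasDerivAt (fun s => gy η (a s) (b s) 1)
      (b' * (1 + a s * K) + 2 * a s * a' / b s * (1 / 2 - Real.sin (2 * b s) / (4 * b s))) s := by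
  unfold gy
  simp only [mul_one]
  have h1 := ((ha.fun_pow 2).fun_div hb hbne)
  have h2 := ((hb.const_mul 2).sin).fun_div (hb.const_mul 4) (by simpa using hbne)
  have h3 := (hasDerivAt_const s (1 / 2 : ℝ)).fun_sub h2
  have h4 := (hb.const_add η).fun_add (h1.fun_mul h3)
  refine ⟨-(a s) / b s ^ 2 * (1 / 2 - Real.sin (2 * b s) / (4 * b s))
    - a s / b s * (2 * Real.cos (2 * b s) * b s - Real.sin (2 * b s)) / (4 * b s ^ 2),
    h4.congr_deriv ?_⟩
  field_simp
  ring

lemma point_not_focal {η : ℝ} {q p : V 2} (hq0 : q 0 = 0) (hq1 : q 1 = η) (hp0 : p 0 = 0)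
    (hp1 : p 1 = η + 4) : ¬ G0.IsFocalPoint {q} p := by
  rintro ⟨⟨q', v⟩, ⟨⟨hq', -⟩, c, hc, hcM, hc0, hc', hder⟩, hexp⟩
  simp only [mem_singleton_iff] at hq'
  subst hq'
  have hc1 : ∀ s, (c s).1 = q' := fun s => (hcM s).1
  set a : ℝ → ℝ := fun s => (c s).2 0 with ha_def
  set b : ℝ → ℝ := fun s => (c s).2 1 with hb_def
  have hcs : ContDiff ℝ ∞ (fun s => (c s).2) := contDiff_snd.comp hc
  have ha : HasDerivAt a (deriv (fun s => (c s).2) 0 0) 0 := hasDerivAt_coord hcs 0 0
  have hb : HasDerivAt b (deriv (fun s => (c s).2) 0 1) 0 := hasDerivAt_coord hcs 1 0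
  have hv0 : v 0 = a 0 := by simp [ha_def, hc0]
  have hv1 : v 1 = b 0 := by simp [hb_def, hc0]
  -- `b 0 ≠ 0`
  have hb0 : b 0 ≠ 0 := by
    intro h
    rw [expMap_axis_zero η (a 0) hq0 hq1 hv0 (by rw [hv1, h])] at hexp
    have := congrArg (fun x : V 2 => x 1) hexp
    simp [hp1] at this
  have hexp' : G0.expMap q' v = !₂[gx (a 0) (b 0) 1, gy η (a 0) (b 0) 1] :=
    expMap_axis hb0 η (a 0) hq0 hq1 hv0 hv1
  simp only at hexp
  rw [hexp'] at hexp
  have e0 : gx (a 0) (b 0) 1 = 0 := by
    have := congrArg (fun x : V 2 => x 0) hexp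
    simpa [hp0] using this
  have e1 : gy η (a 0) (b 0) 1 = η + 4 := by
    have := congrArg (fun x : V 2 => x 1) hexp
    simpa [hp1] using this
  -- the derivative of `exp` along `c`
  have hev : ∀ᶠ s in 𝓝 (0 : ℝ), G0.expMap (c s).1 (c s).2
      = !₂[gx (a s) (b s) 1, gy η (a s) (b s) 1] := by
    have : ∀ᶠ s in 𝓝 (0 : ℝ), b s ≠ 0 := hb.continuousAt.eventually_ne hb0
    filter_upwards [this] with s hs
    exact expMap_axis hs η (a s) (by rw [hc1 s, hq0]) (by rw [hc1 s, hq1]) rfl rfl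
  have hder2 := hder.congr_of_eventuallyEq (hev.mono fun s hs => hs.symm)
  have d0 : HasDerivAt (fun s => gx (a s) (b s) 1) 0 0 :=
    (pr 0).hasFDerivAt.comp_hasDerivAt (0 : ℝ) hder2
  have d1 : HasDerivAt (fun s => gy η (a s) (b s) 1) 0 0 :=
    (pr 1).hasFDerivAt.comp_hasDerivAt (0 : ℝ) hder2
  set a' := deriv (fun s => (c s).2) 0 0
  set b' := deriv (fun s => (c s).2) 0 1
  have f0 := d0.unique (hasDerivAt_F1 ha hb hb0)
  obtain ⟨K, hK⟩ := hasDerivAt_F2 η ha hb hb0
  have f1 := d1.unique hK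
  have key : a' = 0 ∧ b' = 0 := by
    rcases exp_eq_cases hb0 e0 e1 with ⟨h1, h2⟩ | ⟨h1, h2⟩
    · rw [h1, h2] at f0 f1
      simp at f1
      have h3 : a' * Real.sin 4 / 4 = 0 := by
        linear_combination (-1 : ℝ) * f0
      have h4 : a' = 0 := by
        have : a' * Real.sin 4 = 0 := by linarith
        exact (mul_eq_zero.1 this).resolve_right sin_four_ne_zero
      exact ⟨h4, f1.symm⟩
    · rw [h2] at f0 f1
      simp only [Real.sin_pi, Real.cos_pi, Real.sin_two_pi] at f0 f1
      have hpi := Real.pi_pos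
      have h3 : a 0 * b' = 0 := by
        have : a 0 * b' * (Real.pi * -1 - 0) / Real.pi ^ 2 = 0 := by
          linear_combination (-1 : ℝ) * f0
        rw [div_eq_zero_iff] at this
        rcases this with h | h
        · rcases mul_eq_zero.1 h with h | h
          · exact h
          · exfalso; linarith
        · exfalso
          have : Real.pi ^ 2 ≠ 0 := by positivity
          exact this h
      have h4 : b' = 0 := (mul_eq_zero.1 h3).resolve_left h1
      rw [h4] at f1
      have h5 : a 0 * a' / Real.pi = 0 := by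
        linear_combination (-1 : ℝ) * f1
      rw [div_eq_zero_iff] at h5
      rcases h5 with h | h
      · exact ⟨(mul_eq_zero.1 h).resolve_left h1, h4⟩
      · exact absurd h hpi.ne'
  apply hc'
  -- `deriv c 0 = 0`
  have hcd : HasDerivAt c (deriv c 0) 0 := (hc.differentiable (by simp) 0).hasDerivAt
  have h1 : HasDerivAt (fun s => (c s).1) (deriv c 0).1 0 :=
    (ContinuousLinearMap.fst ℝ (V 2) (V 2)).hasFDerivAt.comp_hasDerivAt (0 : ℝ) hcd
  have h2 : HasDerivAt (fun s => (c s).2) (deriv c 0).2 0 :=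
    (ContinuousLinearMap.snd ℝ (V 2) (V 2)).hasFDerivAt.comp_hasDerivAt (0 : ℝ) hcd
  have h3 : (deriv c 0).1 = 0 := by
    have : HasDerivAt (fun s => (c s).1) 0 0 := by
      have h4 : (fun s => (c s).1) = fun _ => q' := funext hc1
      rw [h4]
      exact hasDerivAt_const _ _
    exact h1.unique this
  have h4 : (deriv c 0).2 = 0 := by
    rw [← h2.deriv]
    exact V2_ext key.1 key.2
  exact Prod.ext h3 h4

end Pool.Agent.Taut
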