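import Pool.Agent.Taut.TwoMin
import Pool.Agent.Taut.Focal

/-!
# The points of the axis `x = 0` are not taut
-/

open MeasureTheory Set Filter Topology
open scoped ContDiff ENNReal

noncomputable section

namespace Pool.Agent.Taut

section

variable {η a : ℝ} {p q : V 2}

lemma energy_minVel_le (ha : a ^ 2 = 8 / Real.pi - 2) (hp0 : p 0 = 0)
    (hp1 : p 1 = η + 4) (hq0 : q 0 = 0) (hq1 : q 1 = η) {v : Vel 2} (hv : v ∈ pathSpace p {q}) :
    G0.energy p (minVel a) ≤ G0.energy p v := by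
  have h := energy_sub_minVel ha hp0 hp1 hq0 hq1 hv
  set Z : Vel 2 := v - minVel a with hZ
  have hZ0 : ∫ t in (0:ℝ)..1, Z.fn t 0 = 0 := by
    have h0 : ∀ᵐ t ∂μ01, Z.fn t 0 = v.fn t 0 - (minVel a).fn t 0 := by
      filter_upwards [fn_sub_ae v (minVel a)] with t h1
      rw [hZ, h1, PiLp.sub_apply]
    rw [integral_congr01 h0, intervalIntegral.integral_sub (intervalIntegrable_coord' v 0)
      (intervalIntegrable_coord' (minVel a) 0)]
    have h1 := ((mem_pathSpace_point p q v).1 hv).1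
    have h2 := ((mem_pathSpace_point p q (minVel a)).1 (minVel_mem ha hp0 hp1 hq0 hq1)).1
    linarith
  have h1 := wirtinger (intervalIntegrable_coord' Z 0) (intervalIntegrable_sq Z 0) hZ0
  have h2 : 0 ≤ ∫ t in (0:ℝ)..1, (Real.pi * (2 * (a * Real.sin (Real.pi * t))
            * (∫ s in (0:ℝ)..t, Z.fn s 0) + (∫ s in (0:ℝ)..t, Z.fn s 0) ^ 2) + Z.fn t 1) ^ 2
          / (1 + (a * Real.sin (Real.pi * t) + ∫ s in (0:ℝ)..t, Z.fn s 0) ^ 2) :=
    intervalIntegral.integral_nonneg zero_le_one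
      (fun t _ => div_nonneg (sq_nonneg _) (one_add_sq_pos _).le)
  linarith

lemma energy_le_minVel (ha : a ^ 2 = 8 / Real.pi - 2) (hp0 : p 0 = 0)
    (hp1 : p 1 = η + 4) (hq0 : q 0 = 0) (hq1 : q 1 = η) {v : Vel 2} (hv : v ∈ pathSpace p {q})
    (hle : ‖v - minVel a‖ ≤ 1) :
    G0.energy p v - G0.energy p (minVel a)
      ≤ (3 + 18 * Real.pi ^ 2) * ‖v - minVel a‖ ^ 2 := by
  rw [energy_sub_minVel ha hp0 hp1 hq0 hq1 hv]
  set Z : Vel 2 := v - minVel a with hZ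
  have hN : ‖Z‖ ^ 2 = (∫ t in (0:ℝ)..1, Z.fn t 0 ^ 2) + ∫ t in (0:ℝ)..1, Z.fn t 1 ^ 2 :=
    norm_sq_vel_two Z
  have iZ1 := intervalIntegrable_sq Z 1
  have n0 : 0 ≤ ∫ t in (0:ℝ)..1, Z.fn t 0 ^ 2 :=
    intervalIntegral.integral_nonneg zero_le_one (fun t _ => sq_nonneg _)
  have n1 : 0 ≤ ∫ t in (0:ℝ)..1, Z.fn t 1 ^ 2 :=
    intervalIntegral.integral_nonneg zero_le_one (fun t _ => sq_nonneg _)
  have n2 : 0 ≤ Real.pi ^ 2 * (∫ t in (0:ℝ)..1, (∫ s in (0:ℝ)..t, Z.fn s 0) ^ 2) :=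
    mul_nonneg (sq_nonneg _) (intervalIntegral.integral_nonneg zero_le_one (fun t _ => sq_nonneg _))
  have ha1 : |a| ≤ 1 := by
    have h1 : a ^ 2 ≤ 1 := by
      rw [ha]
      have : 8 / Real.pi ≤ 3 := by
        rw [div_le_iff₀ Real.pi_pos]
        linarith [Real.pi_gt_three]
      linarith
    exact (sq_le_one_iff_abs_le_one a).1 h1
  have h3 : ∫ t in (0:ℝ)..1, (Real.pi * (2 * (a * Real.sin (Real.pi * t))
            * (∫ s in (0:ℝ)..t, Z.fn s 0) + (∫ s in (0:ℝ)..t, Z.fn s 0) ^ 2) + Z.fn t 1) ^ 2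
          / (1 + (a * Real.sin (Real.pi * t) + ∫ s in (0:ℝ)..t, Z.fn s 0) ^ 2)
      ≤ ∫ t in (0:ℝ)..1, (18 * Real.pi ^ 2 * ‖Z‖ ^ 2 + 2 * Z.fn t 1 ^ 2) := by
    have hzc := continuousOn_primitive (intervalIntegrable_coord' Z 0)
    have hxc : ContinuousOn (fun t => a * Real.sin (Real.pi * t)) (uIcc 0 1) := by
      apply Continuous.continuousOn; fun_prop
    have hw : ContinuousOn (fun t => Real.pi * (2 * (a * Real.sin (Real.pi * t))
        * (∫ s in (0:ℝ)..t, Z.fn s 0) + (∫ s in (0:ℝ)..t, Z.fn s 0) ^ 2)) (uIcc 0 1) :=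
      continuousOn_const.mul (((continuousOn_const.mul hxc).mul hzc).add (hzc.pow 2))
    apply intervalIntegral.integral_mono_on zero_le_one
    · apply intervalIntegrable_div (x := fun t => a * Real.sin (Real.pi * t)
        + ∫ s in (0:ℝ)..t, Z.fn s 0) _ (hxc.add hzc)
      have : (fun t => (Real.pi * (2 * (a * Real.sin (Real.pi * t))
            * (∫ s in (0:ℝ)..t, Z.fn s 0) + (∫ s in (0:ℝ)..t, Z.fn s 0) ^ 2) + Z.fn t 1) ^ 2)
          = fun t => (Real.pi * (2 * (a * Real.sin (Real.pi * t))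
            * (∫ s in (0:ℝ)..t, Z.fn s 0) + (∫ s in (0:ℝ)..t, Z.fn s 0) ^ 2)) ^ 2
            + 2 * ((Real.pi * (2 * (a * Real.sin (Real.pi * t))
            * (∫ s in (0:ℝ)..t, Z.fn s 0) + (∫ s in (0:ℝ)..t, Z.fn s 0) ^ 2)) * Z.fn t 1) + Z.fn t 1 ^ 2 := by
        funext t; ring
      rw [this]
      exact (((hw.pow 2).intervalIntegrable).add
        (((intervalIntegrable_coord' Z 1).continuousOn_mul hw).const_mul 2)).add iZ1
    · exact (by simp : IntervalIntegrable (fun _ => 18 * Real.pi ^ 2 * ‖Z‖ ^ 2) volume 0 1).add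
        (iZ1.const_mul 2)
    · intro t ht
      set z := ∫ s in (0:ℝ)..t, Z.fn s 0 with hz
      set x := a * Real.sin (Real.pi * t) with hx
      have hzle : |z| ≤ ‖Z‖ := abs_primitive_le Z 0 ht
      have hxle : |x| ≤ 1 := by
        rw [hx, abs_mul]
        calc |a| * |Real.sin (Real.pi * t)| ≤ 1 * 1 :=
              mul_le_mul ha1 (Real.abs_sin_le_one _) (abs_nonneg _) zero_le_one
          _ = 1 := by norm_num
      have hz1 : |z| ≤ 1 := hzle.trans hle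
      have h4 : |2 * x * z + z ^ 2| ≤ 3 * ‖Z‖ := by
        have : 2 * x * z + z ^ 2 = (2 * x + z) * z := by ring
        rw [this, abs_mul]
        have h5 : |2 * x + z| ≤ 3 := by
          calc |2 * x + z| ≤ |2 * x| + |z| := abs_add_le _ _
            _ = 2 * |x| + |z| := by rw [abs_mul]; norm_num
            _ ≤ 3 := by linarith
        exact mul_le_mul h5 hzle (abs_nonneg _) (by norm_num)
      have h6 : (2 * x * z + z ^ 2) ^ 2 ≤ 9 * ‖Z‖ ^ 2 := by
        have := sq_le_sq' (neg_le_of_abs_le h4) (le_of_abs_le h4)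
        calc (2 * x * z + z ^ 2) ^ 2 ≤ (3 * ‖Z‖) ^ 2 := this
          _ = 9 * ‖Z‖ ^ 2 := by ring
      calc (Real.pi * (2 * x * z + z ^ 2) + Z.fn t 1) ^ 2 / (1 + (x + z) ^ 2)
          ≤ (Real.pi * (2 * x * z + z ^ 2) + Z.fn t 1) ^ 2 :=
            div_le_self (sq_nonneg _) (by nlinarith [sq_nonneg (x + z)])
        _ ≤ 2 * (Real.pi * (2 * x * z + z ^ 2)) ^ 2 + 2 * Z.fn t 1 ^ 2 := by
            nlinarith [sq_nonneg (Real.pi * (2 * x * z + z ^ 2) - Z.fn t 1)]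
        _ = 2 * Real.pi ^ 2 * (2 * x * z + z ^ 2) ^ 2 + 2 * Z.fn t 1 ^ 2 := by ring
        _ ≤ 2 * Real.pi ^ 2 * (9 * ‖Z‖ ^ 2) + 2 * Z.fn t 1 ^ 2 := by gcongr
        _ = 18 * Real.pi ^ 2 * ‖Z‖ ^ 2 + 2 * Z.fn t 1 ^ 2 := by ring
  rw [intervalIntegral.integral_add (by simp) (iZ1.const_mul 2),
    intervalIntegral.integral_const_mul 2] at h3
  simp only [intervalIntegral.integral_const, sub_zero, one_smul] at h3
  have e : (3 + 18 * Real.pi ^ 2) * ‖Z‖ ^ 2 = 3 * ‖Z‖ ^ 2 + 18 * Real.pi ^ 2 * ‖Z‖ ^ 2 := by ring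
  rw [e]
  linarith

lemma isCriticalPoint_minVel (ha : a ^ 2 = 8 / Real.pi - 2) (hp0 : p 0 = 0)
    (hp1 : p 1 = η + 4) (hq0 : q 0 = 0) (hq1 : q 1 = η) :
    IsCriticalPoint (G0.energy p) (pathSpace p {q}) (minVel a) := by
  refine isCriticalPoint_of_bound (minVel_mem ha hp0 hp1 hq0 hq1) (3 + 18 * Real.pi ^ 2)
    (fun v hv hle => ?_)
  have h1 := energy_minVel_le ha hp0 hp1 hq0 hq1 hv
  have h2 := energy_le_minVel ha hp0 hp1 hq0 hq1 hv hle
  rw [abs_of_nonneg (by linarith)]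
  exact h2

lemma minVel_ne {a : ℝ} (ha : a ≠ 0) : minVel a ≠ minVel (-a) := by
  intro h
  have h1 : ∫ t in (0:ℝ)..(1 / 2), (minVel a).fn t 0 = a := by
    rw [primitive_congr (minVel_ae a).1 ⟨by norm_num, by norm_num⟩, primitive_minVel_zero]
    rw [show Real.pi * (1 / 2) = Real.pi / 2 by ring]
    simp
  have h2 : ∫ t in (0:ℝ)..(1 / 2), (minVel (-a)).fn t 0 = -a := by
    rw [primitive_congr (minVel_ae (-a)).1 ⟨by norm_num, by norm_num⟩, primitive_minVel_zero]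
    rw [show Real.pi * (1 / 2) = Real.pi / 2 by ring]
    simp
  rw [h, h2] at h1
  apply ha
  linarith

/-- The energy functional `E_p` for paths from `p = (0, η + 4)` to `q = (0, η)` is not perfect. -/
lemma not_isPerfect_point (hp0 : p 0 = 0)
    (hp1 : p 1 = η + 4) (hq0 : q 0 = 0) (hq1 : q 1 = η) :
    ¬ IsPerfect (G0.energy p) (pathSpace p {q}) := by
  have hpos : 0 < 8 / Real.pi - 2 := by
    have : 2 < 8 / Real.pi := by
      rw [lt_div_iff₀ Real.pi_pos]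
      linarith [Real.pi_lt_four]
    linarith
  set a := √(8 / Real.pi - 2) with ha_def
  have ha : a ^ 2 = 8 / Real.pi - 2 := Real.sq_sqrt hpos.le
  have ha' : (-a) ^ 2 = 8 / Real.pi - 2 := by rw [neg_sq]; exact ha
  have hane : a ≠ 0 := (Real.sqrt_pos.2 hpos).ne'
  refine not_isPerfect_of_two_min (minVel_ne hane)
    (isCriticalPoint_minVel ha hp0 hp1 hq0 hq1) (isCriticalPoint_minVel ha' hp0 hp1 hq0 hq1)
    (fun w hw => energy_minVel_le ha hp0 hp1 hq0 hq1 hw)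
    (fun w hw => energy_minVel_le ha' hp0 hp1 hq0 hq1 hw) ?_
  rw [betti_convex (convex_pathSpace_point p q) ⟨_, minVel_mem ha hp0 hp1 hq0 hq1⟩]
  simp

end

/-- The points of the axis are not taut. -/
lemma not_isTaut_point {q : V 2} (hq0 : q 0 = 0) : ¬ G0.IsTaut {q} := by
  intro h
  have h1 := h !₂[0, q 1 + 4] (point_not_focal (η := q 1) hq0 rfl (by simp) (by simp))
  exact not_isPerfect_point (η := q 1) (p := !₂[0, q 1 + 4]) (q := q) (by simp) (by simp)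
    hq0 rfl h1

end Pool.Agent.Taut
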