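import Mathlib

/-!
# Taut submanifolds of Riemannian manifolds diffeomorphic to `ℝⁿ`

This file contains the definitions which are used to state the results on the problem
of tautness of endpoint sets of critical manifolds of the energy functional.

The ambient manifold is `N = (ℝⁿ, g)` where `g` is an arbitrary smooth Riemannian metric
on `ℝⁿ`. All the notions are the ones of the literature, specialised to such an `N`:

* complete Riemannian metrics, geodesics, exponential map;
* properly embedded submanifolds `M`, normal bundle, focal points of `M`;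
* the Hilbert manifold `P(N, p × M)` of `H¹` paths from `p` to `M`, and its energy functional;
* critical points, Morse index, perfectness with respect to `ℤ/2` singular homology;
* taut submanifolds, critical submanifolds (components of the critical set).
-/

open MeasureTheory Set Filter Topology
open scoped ContDiff

noncomputable section

namespace Pool.Agent.Taut

/-- The smooth manifold `ℝⁿ`. -/
abbrev V (n : ℕ) := EuclideanSpace ℝ (Fin n)

/-- A smooth Riemannian metric on the manifold `ℝⁿ`, given by its coefficients `g_{ij}(x)`: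
smooth functions such that the matrix `(g_{ij}(x))` is symmetric and positive definite at every
point `x`. No relation with the Euclidean inner product is required. -/
structure RMetric (n : ℕ) where
  /-- the coefficients of the metric tensor -/
  g : V n → Matrix (Fin n) (Fin n) ℝ
  /-- they are smooth functions of the point -/
  smooth : ∀ i j, ContDiff ℝ ∞ (fun x => g x i j)
  /-- the metric tensor is symmetric and positive definite at every point -/
  posDef : ∀ x, (g x).PosDef

namespace RMetric

variable {n : ℕ} (G : RMetric n)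

/-- `G.inner x v w = ∑ g_{ij}(x) vᵢ wⱼ` is the inner product of the tangent vectors `v` and `w`
at the point `x`. -/
def inner (x v w : V n) : ℝ := ∑ i, ∑ j, G.g x i j * v i * w j

/-- The Riemannian length of a path parametrised by `[0,1]`. -/
def length (γ : ℝ → V n) : ℝ :=
  ∫ t in (0 : ℝ)..1, √(G.inner (γ t) (deriv γ t) (deriv γ t))

/-- The Riemannian distance: infimum of the lengths of `C¹` paths. -/
def rdist (x y : V n) : ℝ :=
  sInf {l : ℝ | ∃ γ : ℝ → V n, ContDiff ℝ 1 γ ∧ γ 0 = x ∧ γ 1 = y ∧ l = G.length γ}

/-- `(ℝⁿ, g)` is a complete Riemannian manifold: every sequence which is Cauchy for the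
Riemannian distance converges for the Riemannian distance. -/
def Complete : Prop :=
  ∀ x : ℕ → V n, (∀ ε > 0, ∃ K, ∀ i ≥ K, ∀ j ≥ K, G.rdist (x i) (x j) < ε) →
    ∃ y, Tendsto (fun k => G.rdist (x k) y) atTop (𝓝 0)

/-- Geodesics of `(ℝⁿ, g)` defined for all times, in the form of the Euler-Lagrange equations
`d/dt (g_γ(γ', w)) = (1/2) (D_w g)_γ(γ', γ')` for every constant vector `w`. -/
def IsGeodesic (γ : ℝ → V n) : Prop :=
  ContDiff ℝ ∞ γ ∧ ∀ (t : ℝ) (w : V n),
    HasDerivAt (fun s => G.inner (γ s) (deriv γ s) w)
      ((1 / 2) * fderiv ℝ (fun x => G.inner x (deriv γ t) (deriv γ t)) (γ t) w) t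

open Classical in
/-- The exponential map: `expMap q v = γ 1` for the geodesic `γ` with `γ 0 = q`, `γ' 0 = v`.
(For a complete metric this geodesic exists and is unique; the value is `q` if there is
no such geodesic.) -/
def expMap (q v : V n) : V n :=
  if h : ∃ γ : ℝ → V n, G.IsGeodesic γ ∧ γ 0 = q ∧ deriv γ 0 = v then h.choose 1 else q

/-- The tangent vectors of a submanifold `M` at `q`: the velocities at time `0` of the smooth
curves `c` in `M` with `c 0 = q`. -/
def tangentVectors (M : Set (V n)) (q : V n) : Set (V n) :=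
  {w | ∃ c : ℝ → V n, ContDiff ℝ ∞ c ∧ (∀ s, c s ∈ M) ∧ c 0 = q ∧ deriv c 0 = w}

/-- The normal bundle `ν(M)` of `M` in `(ℝⁿ, g)`, as a subset of `T ℝⁿ = ℝⁿ × ℝⁿ`. -/
def normalBundle (M : Set (V n)) : Set (V n × V n) :=
  {qv | qv.1 ∈ M ∧ ∀ w ∈ tangentVectors M qv.1, G.inner qv.1 qv.2 w = 0}

/-- `(q, v) ∈ ν(M)` is a focal normal: it is a singular point of the endpoint map
`exp : ν(M) → N`, i.e. there is a smooth curve `c` in `ν(M)` through `(q, v)` with non-zero
velocity at time `0`, such that the velocity at time `0` of its image by `exp` is zero. -/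
def IsFocalNormal (M : Set (V n)) (qv : V n × V n) : Prop :=
  qv ∈ G.normalBundle M ∧ ∃ c : ℝ → V n × V n, ContDiff ℝ ∞ c ∧
    (∀ s, c s ∈ G.normalBundle M) ∧ c 0 = qv ∧ deriv c 0 ≠ 0 ∧
    HasDerivAt (fun s => G.expMap (c s).1 (c s).2) 0 0

/-- `p` is a focal point of `M`: it is the endpoint `exp v` of a focal normal `v`. -/
def IsFocalPoint (M : Set (V n)) (p : V n) : Prop :=
  ∃ qv : V n × V n, G.IsFocalNormal M qv ∧ G.expMap qv.1 qv.2 = p

end RMetric

/-- `M` is a properly embedded (i.e. closed and embedded) smooth submanifold of `ℝⁿ` of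
codimension `k`. -/
def IsProperSubmanifold {n : ℕ} (M : Set (V n)) (k : ℕ) : Prop :=
  IsClosed M ∧ ∀ q ∈ M, ∃ F : V n → V k, ContDiff ℝ ∞ F ∧
    Function.Surjective (fderiv ℝ F q) ∧ ∀ᶠ x in 𝓝 q, (x ∈ M ↔ F x = 0)

/-! ### The Hilbert manifold of `H¹` paths and the energy -/

/-- The Lebesgue measure on `[0,1]`. -/
abbrev μ01 : Measure ℝ := volume.restrict (Icc (0 : ℝ) 1)

/-- The Hilbert space `L²([0,1], ℝⁿ)`. A path `γ : [0,1] → ℝⁿ` of class `H¹` (absolutely
continuous with square integrable derivative) with `γ 0 = p` is the same thing as its velocity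
`u = γ'` in this Hilbert space, and the `H¹` topology (and Hilbert manifold structure) on such
paths is the one of the Hilbert space of velocities. -/
def Vel (n : ℕ) : Type := Lp (V n) 2 μ01

instance instNormedAddCommGroupVel (n : ℕ) : NormedAddCommGroup (Vel n) :=
  (inferInstance : NormedAddCommGroup (Lp (V n) 2 μ01))

instance instInnerProductSpaceVel (n : ℕ) : InnerProductSpace ℝ (Vel n) :=
  (inferInstance : InnerProductSpace ℝ (Lp (V n) 2 μ01))

/-- The square integrable function `[0,1] → ℝⁿ` (defined up to null sets) corresponding to an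
element of `Vel n`. -/
def Vel.fn {n : ℕ} (u : Vel n) : ℝ → V n := (Subtype.val u : ℝ →ₘ[μ01] V n)

/-- The path `γ` with `γ 0 = p` and `γ' = u`. -/
def path {n : ℕ} (p : V n) (u : Vel n) (t : ℝ) : V n := p + ∫ s in (0 : ℝ)..t, u.fn s

/-- The path space `P(N, p × M)`, `N = ℝⁿ`, of `H¹` paths from `p` to `M`, in terms of the
velocity. -/
def pathSpace {n : ℕ} (p : V n) (M : Set (V n)) : Set (Vel n) := {u | path p u 1 ∈ M}

/-- The energy functional `E_p(γ) = ∫ ‖γ'(t)‖² dt`. -/
def RMetric.energy {n : ℕ} (G : RMetric n) (p : V n) (u : Vel n) : ℝ :=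
  ∫ t in (0 : ℝ)..1, G.inner (path p u t) (u.fn t) (u.fn t)

/-! ### Critical points, Morse index, perfect functions -/

section Morse

variable {H : Type} [NormedAddCommGroup H] [NormedSpace ℝ H]

/-- Critical points of the restriction of a smooth function `f` to a submanifold `P` of `H`:
points `u` of `P` such that `(f ∘ c)'(0) = 0` for all the smooth curves `c` in `P` with
`c 0 = u`. -/
def IsCriticalPoint (f : H → ℝ) (P : Set H) (u : H) : Prop :=
  u ∈ P ∧ ∀ c : ℝ → H, ContDiff ℝ ∞ c → (∀ s, c s ∈ P) → c 0 = u →
    HasDerivAt (fun s => f (c s)) 0 0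

/-- The Hessian of `f` (restricted to the submanifold `P` of `H`) at the critical point `u` is
negative on the tangent vector `X`: there is a smooth curve `c` in `P` with `c 0 = u` and
`c' 0 = X`, for which `Hess f (X, X) = (f ∘ c)''(0) < 0`. -/
def HessianNeg (f : H → ℝ) (P : Set H) (u X : H) : Prop :=
  ∃ c : ℝ → H, ContDiff ℝ ∞ c ∧ (∀ s, c s ∈ P) ∧ c 0 = u ∧ deriv c 0 = X ∧
    deriv (deriv (fun s => f (c s))) 0 < 0

/-- The Morse index of `f` (restricted to the submanifold `P` of `H`) at the critical point `u`:
the supremum of the dimensions of the linear subspaces of the tangent space on which the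
Hessian is negative definite. -/
def morseIndex (f : H → ℝ) (P : Set H) (u : H) : ℕ∞ :=
  ⨆ (k : ℕ) (_ : ∃ W : Submodule ℝ H, Module.finrank ℝ W = k ∧
    ∀ X ∈ W, X ≠ 0 → HessianNeg f P u X), (k : ℕ∞)

/-- The singular homology functor `H_k(-; ℤ/2)` with values in the vector spaces over `ℤ/2`. -/
def homologyFunctor (k : ℕ) : CategoryTheory.Functor TopCat.{0} (ModuleCat.{0} (ZMod 2)) :=
  (AlgebraicTopology.singularHomologyFunctor (ModuleCat.{0} (ZMod 2)) k).obj
    (ModuleCat.of (ZMod 2) (ZMod 2))

/-- The `k`-th `ℤ/2`-Betti number of a topological space `X`: the dimension of the singular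
homology `H_k(X; ℤ/2)` as a vector space over `ℤ/2`. -/
def betti (X : Type) [TopologicalSpace X] (k : ℕ) : ℕ∞ :=
  Cardinal.toENat (Module.rank (ZMod 2) ((homologyFunctor k).obj (TopCat.of X)))

/-- The function `f` is perfect on `P`: for every `k`, the number of the critical points of
index `k` is the `k`-th `ℤ/2`-Betti number of `P`. -/
def IsPerfect (f : H → ℝ) (P : Set H) : Prop :=
  ∀ k : ℕ, {u | IsCriticalPoint f P u ∧ morseIndex f P u = k}.encard = betti P k

end Morse

namespace RMetric

variable {n : ℕ} (G : RMetric n)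

/-- `M` is taut in `N = (ℝⁿ, g)`: for every `p` which is not a focal point of `M`, the energy
functional `E_p` on `P(N, p × M)` is perfect. -/
def IsTaut (M : Set (V n)) : Prop :=
  ∀ p : V n, ¬ G.IsFocalPoint M p → IsPerfect (G.energy p) (pathSpace p M)

/-- The set of the critical points of `E_p` on `P(N, p × M)`. -/
def criticalSet (p : V n) (M : Set (V n)) : Set (Vel n) :=
  {u | IsCriticalPoint (G.energy p) (pathSpace p M) u}

/-- `Ct` is a critical submanifold of `E_p` on `P(N, p × M)`: a connected component of the set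
of the critical points. -/
def IsCriticalSubmanifold (p : V n) (M : Set (V n)) (Ct : Set (Vel n)) : Prop :=
  ∃ u ∈ G.criticalSet p M, Ct = connectedComponentIn (G.criticalSet p M) u

end RMetric

/-- The set `C = {γ(1) : γ ∈ Ct}` of the endpoints of a set `Ct` of paths from `p`. -/
def endpointSet {n : ℕ} (p : V n) (Ct : Set (Vel n)) : Set (V n) :=
  (fun u => path p u 1) '' Ct

end Pool.Agent.Taut
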