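import Pool.Agent.Taut.Defs

/-!
# `ℤ/2`-Betti numbers of contractible spaces
-/

open CategoryTheory AlgebraicTopology

noncomputable section

namespace Pool.Agent.Taut

/-- `H_k(-; ℤ/2)` as a functor -/
abbrev HZ2F (k : ℕ) : TopCat.{0} ⥤ ModuleCat.{0} (ZMod 2) := homologyFunctor k

/-- `H_k(X; ℤ/2)` -/
abbrev HZ2 (X : Type) [TopologicalSpace X] (k : ℕ) : ModuleCat.{0} (ZMod 2) :=
  (HZ2F k).obj (TopCat.of X)

lemma betti_eq (X : Type) [TopologicalSpace X] (k : ℕ) :
    betti X k = Cardinal.toENat (Module.rank (ZMod 2) (HZ2 X k)) := rfl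

lemma betti_eq_of_iso {X Y : Type} [TopologicalSpace X] [TopologicalSpace Y] {k : ℕ}
    (e : HZ2 X k ≅ HZ2 Y k) : betti X k = betti Y k := by
  rw [betti_eq, betti_eq]
  exact congrArg _ (LinearEquiv.rank_eq e.toLinearEquiv)

lemma HZ2F_map_eq {X Y : TopCat.{0}} {f g : X ⟶ Y} (H : ContinuousMap.Homotopic f.hom g.hom)
    (k : ℕ) : (HZ2F k).map f = (HZ2F k).map g := by
  obtain ⟨H⟩ := H
  have H' : TopCat.Homotopy f g := H
  exact H'.congr_homologyMap_singularChainComplexFunctor (ModuleCat.of (ZMod 2) (ZMod 2)) k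

/-- homotopy equivalent spaces have isomorphic homology -/
def isoOfHomotopyEquiv {X Y : Type} [TopologicalSpace X] [TopologicalSpace Y]
    (e : ContinuousMap.HomotopyEquiv X Y) (k : ℕ) : HZ2 X k ≅ HZ2 Y k where
  hom := (HZ2F k).map (TopCat.ofHom e.toFun)
  inv := (HZ2F k).map (TopCat.ofHom e.invFun)
  hom_inv_id := by
    rw [← (HZ2F k).map_comp, ← (HZ2F k).map_id]
    exact HZ2F_map_eq e.left_inv k
  inv_hom_id := by
    rw [← (HZ2F k).map_comp, ← (HZ2F k).map_id]
    exact HZ2F_map_eq e.right_inv k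

lemma betti_homotopyEquiv {X Y : Type} [TopologicalSpace X] [TopologicalSpace Y]
    (e : ContinuousMap.HomotopyEquiv X Y) (k : ℕ) : betti X k = betti Y k :=
  betti_eq_of_iso (isoOfHomotopyEquiv e k)

lemma betti_zero_of_pathConnected (X : Type) [TopologicalSpace X] [PathConnectedSpace X] :
    betti X 0 = 1 := by
  have : PathConnectedSpace (TopCat.of X) := inferInstanceAs (PathConnectedSpace X)
  have hiso : IsIso ((TopCat.of X).singularHomology₀ε (ModuleCat.of (ZMod 2) (ZMod 2))) :=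
    inferInstance
  have e : HZ2 X 0 ≅ ModuleCat.of (ZMod 2) (ZMod 2) :=
    @asIso _ _ _ _ ((TopCat.of X).singularHomology₀ε (ModuleCat.of (ZMod 2) (ZMod 2))) hiso
  rw [betti_eq]
  have h1 := LinearEquiv.rank_eq e.toLinearEquiv
  have h2 : Module.rank (ZMod 2) (ModuleCat.of (ZMod 2) (ZMod 2)) = 1 := Module.rank_self (ZMod 2)
  rw [h1, h2]
  simp

lemma betti_unit_succ (k : ℕ) : betti Unit (k + 1) = 0 := by
  have : TotallyDisconnectedSpace (TopCat.of Unit) :=
    inferInstanceAs (TotallyDisconnectedSpace Unit)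
  have h := isZero_singularHomologyFunctor_of_totallyDisconnectedSpace (ModuleCat.{0} (ZMod 2))
    (k + 1) (ModuleCat.of (ZMod 2) (ZMod 2)) (TopCat.of Unit) (Nat.succ_ne_zero k)
  rw [betti_eq]
  have h2 : Subsingleton (HZ2 Unit (k + 1)) := ModuleCat.subsingleton_of_isZero h
  rw [rank_subsingleton']
  simp

lemma betti_contractible (X : Type) [TopologicalSpace X] [ContractibleSpace X] (k : ℕ) :
    betti X k = if k = 0 then 1 else 0 := by
  obtain ⟨e⟩ := ContractibleSpace.hequiv_unit X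
  rw [betti_homotopyEquiv e]
  cases k with
  | zero => simpa using betti_zero_of_pathConnected Unit
  | succ k => simpa using betti_unit_succ k

lemma betti_convex {H : Type} [NormedAddCommGroup H] [NormedSpace ℝ H] {P : Set H}
    (hP : Convex ℝ P) (hne : P.Nonempty) (k : ℕ) : betti P k = if k = 0 then 1 else 0 := by
  have := hP.contractibleSpace hne
  exact betti_contractible P k

end Pool.Agent.Taut
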