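import Pool.Agent.Taut.Defs

/-!
# Elementary lemmas on critical points and Morse indices
-/

open Set Filter Topology Asymptotics
open scoped ContDiff

noncomputable section

namespace Pool.Agent.Taut

variable {H : Type} [NormedAddCommGroup H] [NormedSpace ℝ H]

/-- A quadratic estimate at `u` implies that `u` is critical. -/
lemma isCriticalPoint_of_bound {f : H → ℝ} {P : Set H} {u : H} (hu : u ∈ P) (C : ℝ)
    (h : ∀ v ∈ P, ‖v - u‖ ≤ 1 → |f v - f u| ≤ C * ‖v - u‖ ^ 2) : IsCriticalPoint f P u := by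
  refine ⟨hu, fun c hc hcP hc0 => ?_⟩
  have hd : HasDerivAt c (deriv c 0) 0 := (hc.differentiable (by simp) 0).hasDerivAt
  have hO : (fun s => c s - u) =O[𝓝 0] (fun s : ℝ => s) := by
    have := hd.isBigO_sub
    simpa [hc0] using this
  have hcont : Tendsto (fun s => ‖c s - u‖) (𝓝 0) (𝓝 0) := by
    have h1 : Tendsto (fun s => c s - u) (𝓝 0) (𝓝 (c 0 - u)) :=
      (hd.continuousAt.sub continuousAt_const)
    rw [hc0, sub_self] at h1
    simpa using h1.norm
  have hev : ∀ᶠ s in 𝓝 (0 : ℝ), ‖c s - u‖ ≤ 1 := by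
    filter_upwards [hcont.eventually (gt_mem_nhds (zero_lt_one))] with s hs using hs.le
  have h2 : (fun s => f (c s) - f u) =O[𝓝 0] (fun s : ℝ => s ^ 2) := by
    have h3 : (fun s => f (c s) - f u) =O[𝓝 0] (fun s : ℝ => ‖c s - u‖ ^ 2) := by
      refine IsBigO.of_bound |C| ?_
      filter_upwards [hev] with s hs
      rw [Real.norm_eq_abs]
      refine (h _ (hcP s) hs).trans ?_
      rw [norm_pow, norm_norm]
      gcongr
      exact le_abs_self C
    refine h3.trans ?_
    have := (hO.norm_left).pow 2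
    simpa using this
  have h4 : (fun s => f (c s) - f u) =o[𝓝 0] (fun s : ℝ => s) := by
    refine h2.trans_isLittleO ?_
    have := isLittleO_pow_pow (𝕜 := ℝ) (show 1 < 2 by norm_num)
    simpa using this
  rw [hasDerivAt_iff_isLittleO]
  simpa [hc0] using h4

/-- The Hessian has no negative direction at a critical minimum. -/
lemma not_hessianNeg_of_min {f : H → ℝ} {P : Set H} {u : H} (hcrit : IsCriticalPoint f P u)
    (hmin : ∀ v ∈ P, f u ≤ f v) (X : H) : ¬ HessianNeg f P u X := by
  rintro ⟨c, hc, hcP, hc0, -, hneg⟩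
  have hd := hcrit.2 c hc hcP hc0
  set h : ℝ → ℝ := fun s => f (c s)
  have hmin' : ∀ s, h 0 ≤ h s := by
    intro s
    have := hmin (c s) (hcP s)
    simpa [h, hc0] using this
  have hmax : IsLocalMax h 0 := isLocalMax_of_deriv_deriv_neg hneg hd.deriv hd.continuousAt
  have hev : h =ᶠ[𝓝 0] fun _ => h 0 := by
    filter_upwards [hmax] with s hs
    exact le_antisymm hs (hmin' s)
  have hev2 : deriv h =ᶠ[𝓝 0] fun _ => 0 := by
    have := hev.deriv
    simpa using this
  rw [hev2.deriv_eq] at hneg
  simp at hneg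

/-- The Morse index vanishes at a critical minimum. -/
lemma morseIndex_eq_zero_of_min {f : H → ℝ} {P : Set H} {u : H} (hcrit : IsCriticalPoint f P u)
    (hmin : ∀ v ∈ P, f u ≤ f v) : morseIndex f P u = 0 := by
  rw [morseIndex, ← nonpos_iff_eq_zero]
  refine iSup_le fun k => iSup_le ?_
  rintro ⟨W, hW, hneg⟩
  have hbot : W = ⊥ := by
    rw [eq_bot_iff]
    intro X hX
    by_contra hne
    exact not_hessianNeg_of_min hcrit hmin X (hneg X hX hne)
  rw [hbot, finrank_bot] at hW
  simp [← hW]

/-- If `f` has a unique critical point on `P`, its index is `0`, and `P` is convex, then `f` is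
perfect. -/
lemma isPerfect_of_unique {f : H → ℝ} {P : Set H} {u : H}
    (hcrit : IsCriticalPoint f P u) (huniq : ∀ v, IsCriticalPoint f P v → v = u)
    (hmin : ∀ v ∈ P, f u ≤ f v)
    (hbetti : ∀ k, betti P k = if k = 0 then 1 else 0) : IsPerfect f P := by
  intro k
  rw [hbetti]
  have h0 := morseIndex_eq_zero_of_min hcrit hmin
  cases k with
  | zero =>
    have : {v | IsCriticalPoint f P v ∧ morseIndex f P v = (0 : ℕ)} = {u} := by
      ext v
      simp only [mem_ofPred_eq, mem_singleton_iff]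
      constructor
      · intro h; exact huniq v h.1
      · rintro rfl; exact ⟨hcrit, by simpa using h0⟩
    rw [this]
    simp
  | succ k =>
    have : {v | IsCriticalPoint f P v ∧ morseIndex f P v = ((k + 1 : ℕ) : ℕ∞)} = ∅ := by
      ext v
      simp only [mem_ofPred_eq, mem_empty_iff_false, iff_false, not_and]
      intro h hk
      rw [huniq v h, h0] at hk
      exact absurd hk.symm (by simp)
    rw [this]
    simp

/-- If `f` has two distinct critical minima on `P` and `b₀(P) = 1` then `f` is not perfect. -/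
lemma not_isPerfect_of_two_min {f : H → ℝ} {P : Set H} {u v : H} (hne : u ≠ v)
    (hu : IsCriticalPoint f P u) (hv : IsCriticalPoint f P v)
    (hminu : ∀ w ∈ P, f u ≤ f w) (hminv : ∀ w ∈ P, f v ≤ f w)
    (hbetti : betti P 0 = 1) : ¬ IsPerfect f P := by
  intro h
  have h1 := h 0
  rw [hbetti, Set.encard_eq_one] at h1
  obtain ⟨w, hw⟩ := h1
  have h2 : u ∈ {u | IsCriticalPoint f P u ∧ morseIndex f P u = (0 : ℕ)} :=
    ⟨hu, by simpa using morseIndex_eq_zero_of_min hu hminu⟩
  have h3 : v ∈ {u | IsCriticalPoint f P u ∧ morseIndex f P u = (0 : ℕ)} :=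
    ⟨hv, by simpa using morseIndex_eq_zero_of_min hv hminv⟩
  rw [hw, mem_singleton_iff] at h2 h3
  exact hne (h2.trans h3.symm)

end Pool.Agent.Taut
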