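import Pool.Agent.Taut.Defs

/-!
# Elementary facts on the space `Vel n` of velocities
-/

open MeasureTheory Set Filter Topology
open scoped ContDiff ENNReal

noncomputable section

namespace Pool.Agent.Taut

variable {n : ℕ}

lemma restrict_Ioc_eq : volume.restrict (Ioc (0 : ℝ) 1) = μ01 :=
  Measure.restrict_congr_set Ioc_ae_eq_Icc

lemma intervalIntegral_eq (f : ℝ → ℝ) : ∫ t in (0 : ℝ)..1, f t = ∫ t, f t ∂μ01 := by
  rw [intervalIntegral.integral_of_le zero_le_one, restrict_Ioc_eq]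

lemma intervalIntegrable_iff' (f : ℝ → ℝ) :
    IntervalIntegrable f volume 0 1 ↔ Integrable f μ01 := by
  rw [intervalIntegrable_iff_integrableOn_Ioc_of_le zero_le_one, IntegrableOn, restrict_Ioc_eq]

/-- The underlying element of `Lp`. -/
def Vel.toLp (u : Vel n) : Lp (V n) 2 μ01 := u

lemma fn_eq (u : Vel n) : u.fn = (u.toLp : ℝ → V n) := rfl

lemma fn_add_ae (u v : Vel n) : ∀ᵐ t ∂μ01, (u + v).fn t = u.fn t + v.fn t :=
  Lp.coeFn_add u.toLp v.toLp

lemma fn_sub_ae (u v : Vel n) : ∀ᵐ t ∂μ01, (u - v).fn t = u.fn t - v.fn t :=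
  Lp.coeFn_sub u.toLp v.toLp

lemma fn_smul_ae (s : ℝ) (u : Vel n) : ∀ᵐ t ∂μ01, (s • u).fn t = s • u.fn t :=
  Lp.coeFn_smul s u.toLp

lemma vel_ext {u v : Vel n} (h : ∀ᵐ t ∂μ01, u.fn t = v.fn t) : u = v :=
  Lp.ext (f := u.toLp) (g := v.toLp) h

lemma memLp_vel (u : Vel n) : MemLp u.fn 2 μ01 := Lp.memLp u.toLp

lemma memLp_coord (u : Vel n) (i : Fin n) : MemLp (fun t => u.fn t i) 2 μ01 := by
  have h2 := (EuclideanSpace.proj (𝕜 := ℝ) i).comp_memLp' (memLp_vel u)
  exact h2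

lemma integrable_coord (u : Vel n) (i : Fin n) : Integrable (fun t => u.fn t i) μ01 :=
  (memLp_coord u i).integrable (by norm_num)

lemma intervalIntegrable_coord (u : Vel n) (i : Fin n) {t : ℝ} (ht : t ∈ Icc (0 : ℝ) 1) :
    IntervalIntegrable (fun t => u.fn t i) volume 0 t := by
  have h := (intervalIntegrable_iff' _).2 (integrable_coord u i)
  refine h.mono_set ?_
  rw [uIcc_of_le ht.1, uIcc_of_le zero_le_one]
  exact Icc_subset_Icc le_rfl ht.2

lemma integrable_vel (u : Vel n) : Integrable (fun t => u.fn t) μ01 :=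
  (memLp_vel u).integrable (by norm_num)

lemma intervalIntegrable_vel (u : Vel n) {t : ℝ} (ht : t ∈ Icc (0 : ℝ) 1) :
    IntervalIntegrable (fun t => u.fn t) volume 0 t := by
  rw [intervalIntegrable_iff_integrableOn_Ioc_of_le ht.1]
  have h1 : IntegrableOn (fun t => u.fn t) (Icc (0 : ℝ) 1) volume := integrable_vel u
  exact h1.mono_set (fun s hs => ⟨hs.1.le, hs.2.trans ht.2⟩)

lemma path_coord (p : V n) (u : Vel n) (i : Fin n) {t : ℝ} (ht : t ∈ Icc (0 : ℝ) 1) :
    path p u t i = p i + ∫ s in (0 : ℝ)..t, u.fn s i := by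
  have h := (EuclideanSpace.proj (𝕜 := ℝ) i : V n →L[ℝ] ℝ).intervalIntegral_comp_comm
    (intervalIntegrable_vel u ht)
  have h2 : (∫ s in (0 : ℝ)..t, u.fn s) i = ∫ s in (0 : ℝ)..t, u.fn s i := h.symm
  rw [path, PiLp.add_apply, h2]

lemma norm_sq_vel (u : Vel n) : ‖u‖ ^ 2 = ∑ i, ∫ t, (u.fn t i) ^ 2 ∂μ01 := by
  have h1 : ‖u‖ ^ 2 = inner ℝ u.toLp u.toLp := by
    rw [real_inner_self_eq_norm_sq]
    rfl
  rw [h1, L2.inner_def, ← integral_finsetSum]
  · congr 1
    funext t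
    rw [real_inner_self_eq_norm_sq, EuclideanSpace.norm_sq_eq]
    simp [fn_eq]
  · intro i _
    exact (memLp_coord u i).integrable_sq

lemma memLp_of_continuous {f : ℝ → V n} (hf : Continuous f) : MemLp f 2 μ01 := by
  have : IsFiniteMeasure μ01 := by infer_instance
  obtain ⟨C, hC⟩ := isCompact_Icc.exists_bound_of_continuousOn (hf.continuousOn (s := Icc (0:ℝ) 1))
  refine MemLp.of_bound hf.aestronglyMeasurable C ?_
  exact (ae_restrict_iff' measurableSet_Icc).2 (ae_of_all _ fun t ht => hC t ht)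

/-- The element of `Vel n` given by a continuous function. -/
def toVel (f : ℝ → V n) (hf : Continuous f) : Vel n :=
  show Lp (V n) 2 μ01 from MemLp.toLp f (memLp_of_continuous hf)

lemma toVel_ae (f : ℝ → V n) (hf : Continuous f) : ∀ᵐ t ∂μ01, (toVel f hf).fn t = f t :=
  MemLp.coeFn_toLp (memLp_of_continuous hf)

/-- Composition of the elements of `Vel n` with a linear map. -/
def compVel {m : ℕ} (L : V n →L[ℝ] V m) (u : Vel n) : Vel m :=
  show Lp (V m) 2 μ01 from L.compLp u.toLp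

lemma compVel_ae {m : ℕ} (L : V n →L[ℝ] V m) (u : Vel n) :
    ∀ᵐ t ∂μ01, (compVel L u).fn t = L (u.fn t) :=
  ContinuousLinearMap.coeFn_compLp L u.toLp

end Pool.Agent.Taut
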