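import Pool.Agent.Taut.VelLemmas

/-!
# Wirtinger's inequality on `[0,1]` with Dirichlet boundary conditions
-/

open MeasureTheory Set Filter Topology
open scoped ContDiff ENNReal

noncomputable section

namespace Pool.Agent.Taut

/-- Integration by parts of a primitive against a `C¹` function. -/
lemma integral_by_parts {f g g' : ℝ → ℝ} (hf : IntervalIntegrable f volume 0 1)
    (hg : ∀ t, HasDerivAt g (g' t) t) (hg' : Continuous g') :
    ∫ t in (0:ℝ)..1, g t * f t = g 1 * (∫ s in (0:ℝ)..1, f s)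
      - ∫ t in (0:ℝ)..1, g' t * (∫ s in (0:ℝ)..t, f s) := by
  have hx : AbsolutelyContinuousOnInterval (fun t => ∫ s in (0:ℝ)..t, f s) 0 1 :=
    hf.absolutelyContinuousOnInterval_intervalIntegral (by simp)
  have hgc : ContDiff ℝ 1 g := by
    rw [contDiff_one_iff_deriv]
    refine ⟨fun t => (hg t).differentiableAt, ?_⟩
    have : deriv g = g' := funext fun t => (hg t).deriv
    rwa [this]
  have hga : AbsolutelyContinuousOnInterval g 0 1 := hgc.contDiffOn.absolutelyContinuousOnInterval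
  have h := hga.integral_mul_deriv_eq_deriv_mul hx
  have h1 : ∫ t in (0:ℝ)..1, g t * deriv (fun t => ∫ s in (0:ℝ)..t, f s) t
      = ∫ t in (0:ℝ)..1, g t * f t := by
    apply intervalIntegral.integral_congr_ae
    filter_upwards [hf.ae_hasDerivAt_integral] with t ht ht2
    have := ht (uIoc_subset_uIcc ht2) 0 (by simp)
    rw [this.deriv]
  have h2 : ∀ t, deriv g t = g' t := fun t => (hg t).deriv
  rw [h1] at h
  simp only [h2, intervalIntegral.integral_same, mul_zero, sub_zero] at h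
  exact h

lemma continuousOn_primitive {f : ℝ → ℝ} (hf : IntervalIntegrable f volume 0 1) :
    ContinuousOn (fun t => ∫ s in (0:ℝ)..t, f s) (uIcc 0 1) :=
  (hf.absolutelyContinuousOnInterval_intervalIntegral (by simp)).continuousOn

lemma wirtinger_aux {f : ℝ → ℝ} (hf : IntervalIntegrable f volume 0 1)
    (hf2 : IntervalIntegrable (fun t => f t ^ 2) volume 0 1) (h1 : ∫ t in (0:ℝ)..1, f t = 0)
    {l : ℝ} (hl0 : 0 < l) (hl : l < Real.pi) :
    l ^ 2 * ∫ t in (0:ℝ)..1, (∫ s in (0:ℝ)..t, f s) ^ 2 ≤ ∫ t in (0:ℝ)..1, f t ^ 2 := by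
  set x : ℝ → ℝ := fun t => ∫ s in (0:ℝ)..t, f s with hx_def
  set δ : ℝ := (Real.pi - l) / 2 with hδ
  set θ : ℝ → ℝ := fun t => l * t + δ with hθ
  set φ : ℝ → ℝ := fun t => l * Real.cos (θ t) / Real.sin (θ t) with hφ
  have hx : AbsolutelyContinuousOnInterval x 0 1 :=
    hf.absolutelyContinuousOnInterval_intervalIntegral (by simp)
  have hxc : ContinuousOn x (uIcc 0 1) := hx.continuousOn
  have hsin : ∀ t ∈ uIcc (0:ℝ) 1, 0 < Real.sin (θ t) := by
    intro t ht
    rw [uIcc_of_le zero_le_one] at ht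
    apply Real.sin_pos_of_pos_of_lt_pi
    · have : 0 ≤ l * t := mul_nonneg hl0.le ht.1
      simp only [hθ, hδ]; linarith
    · have : l * t ≤ l := by nlinarith [ht.2]
      simp only [hθ, hδ]; linarith
  have hθd : ∀ t, HasDerivAt θ l t := by
    intro t
    have := ((hasDerivAt_id' t).const_mul l).add_const δ
    exact this.congr_deriv (by ring)
  have hφd : ∀ t ∈ uIcc (0:ℝ) 1, HasDerivAt φ (-(l ^ 2 + φ t ^ 2)) t := by
    intro t ht
    have hs := (hsin t ht).ne'
    have h2 := ((hθd t).cos.const_mul l).fun_div ((hθd t).sin) hs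
    refine h2.congr_deriv ?_
    simp only [hφ]
    have := Real.sin_sq_add_cos_sq (θ t)
    field_simp
    linarith
  have hφc : ContinuousOn φ (uIcc 0 1) := fun t ht => (hφd t ht).continuousAt.continuousWithinAt
  have hφa : AbsolutelyContinuousOnInterval φ 0 1 := by
    apply ContDiffOn.absolutelyContinuousOnInterval
    have hθc : ContDiff ℝ 1 θ := by simp only [hθ]; fun_prop
    apply ContDiffOn.fun_div
    · exact (contDiff_const.mul (Real.contDiff_cos.comp hθc)).contDiffOn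
    · exact (Real.contDiff_sin.comp hθc).contDiffOn
    · intro t ht; exact (hsin t ht).ne'
  have key := (hφa.fun_mul hx).integral_deriv_mul_eq_sub hx
  have hx1 : x 1 = 0 := h1
  have hx0 : x 0 = 0 := by simp [hx_def]
  rw [hx1, hx0] at key
  have e1 : ∫ t in (0:ℝ)..1, (deriv (fun t => φ t * x t) t * x t + φ t * x t * deriv x t)
      = ∫ t in (0:ℝ)..1, (2 * (φ t * x t * f t) - (l ^ 2 + φ t ^ 2) * x t ^ 2) := by
    apply intervalIntegral.integral_congr_ae
    filter_upwards [hf.ae_hasDerivAt_integral] with t ht ht2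
    have hmem := uIoc_subset_uIcc ht2
    have h2 : HasDerivAt x (f t) t := ht hmem 0 (by simp)
    have h3 := (hφd t hmem).fun_mul h2
    rw [h2.deriv, h3.deriv]
    ring
  rw [e1] at key
  simp only [mul_zero, sub_zero] at key
  -- integrability
  have hxx : ContinuousOn (fun t => x t ^ 2) (uIcc 0 1) := hxc.pow 2
  have i1 : IntervalIntegrable (fun t => φ t * x t * f t) volume 0 1 :=
    hf.continuousOn_mul (hφc.mul hxc)
  have i2 : IntervalIntegrable (fun t => x t ^ 2) volume 0 1 := hxx.intervalIntegrable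
  have i3 : IntervalIntegrable (fun t => φ t ^ 2 * x t ^ 2) volume 0 1 :=
    ((hφc.pow 2).mul hxx).intervalIntegrable
  have e2 : ∫ t in (0:ℝ)..1, (2 * (φ t * x t * f t) - (l ^ 2 + φ t ^ 2) * x t ^ 2)
      = 2 * (∫ t in (0:ℝ)..1, φ t * x t * f t) - (l ^ 2 * (∫ t in (0:ℝ)..1, x t ^ 2)
        + ∫ t in (0:ℝ)..1, φ t ^ 2 * x t ^ 2) := by
    have : (fun t => (l ^ 2 + φ t ^ 2) * x t ^ 2) = fun t => l ^ 2 * x t ^ 2 + φ t ^ 2 * x t ^ 2 := by
      funext t; ring
    rw [intervalIntegral.integral_sub (i1.const_mul 2), this,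
      intervalIntegral.integral_add (i2.const_mul _) i3, intervalIntegral.integral_const_mul,
      intervalIntegral.integral_const_mul]
    rw [this]
    exact (i2.const_mul _).add i3
  have e3 : 0 ≤ ∫ t in (0:ℝ)..1, (f t - φ t * x t) ^ 2 :=
    intervalIntegral.integral_nonneg zero_le_one (fun t _ => sq_nonneg _)
  have e4 : ∫ t in (0:ℝ)..1, (f t - φ t * x t) ^ 2
      = (∫ t in (0:ℝ)..1, f t ^ 2) - 2 * (∫ t in (0:ℝ)..1, φ t * x t * f t)
        + ∫ t in (0:ℝ)..1, φ t ^ 2 * x t ^ 2 := by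
    have : (fun t => (f t - φ t * x t) ^ 2)
        = fun t => f t ^ 2 - 2 * (φ t * x t * f t) + φ t ^ 2 * x t ^ 2 := by
      funext t; ring
    rw [this, intervalIntegral.integral_add (hf2.sub (i1.const_mul 2)) i3,
      intervalIntegral.integral_sub hf2 (i1.const_mul 2), intervalIntegral.integral_const_mul]
  rw [e2] at key
  rw [e4] at e3
  linarith

/-- Wirtinger's inequality. -/
lemma wirtinger {f : ℝ → ℝ} (hf : IntervalIntegrable f volume 0 1)
    (hf2 : IntervalIntegrable (fun t => f t ^ 2) volume 0 1) (h1 : ∫ t in (0:ℝ)..1, f t = 0) :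
    Real.pi ^ 2 * ∫ t in (0:ℝ)..1, (∫ s in (0:ℝ)..t, f s) ^ 2 ≤ ∫ t in (0:ℝ)..1, f t ^ 2 := by
  have h2 : ∀ᶠ l in 𝓝[<] Real.pi,
      l ^ 2 * ∫ t in (0:ℝ)..1, (∫ s in (0:ℝ)..t, f s) ^ 2 ≤ ∫ t in (0:ℝ)..1, f t ^ 2 := by
    have h3 : ∀ᶠ l in 𝓝[<] Real.pi, 0 < l := by
      exact nhdsWithin_le_nhds (lt_mem_nhds Real.pi_pos)
    filter_upwards [h3, self_mem_nhdsWithin] with l hl0 hl
    exact wirtinger_aux hf hf2 h1 hl0 hl
  have h4 : Tendsto (fun l : ℝ => l ^ 2 * ∫ t in (0:ℝ)..1, (∫ s in (0:ℝ)..t, f s) ^ 2)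
      (𝓝[<] Real.pi) (𝓝 (Real.pi ^ 2 * ∫ t in (0:ℝ)..1, (∫ s in (0:ℝ)..t, f s) ^ 2)) := by
    have : Continuous (fun l : ℝ => l ^ 2 * ∫ t in (0:ℝ)..1, (∫ s in (0:ℝ)..t, f s) ^ 2) := by
      fun_prop
    exact (this.tendsto Real.pi).mono_left nhdsWithin_le_nhds
  exact le_of_tendsto h4 h2

end Pool.Agent.Taut
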