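import Pool.Agent.Taut.Metric
import Pool.Agent.Taut.VelLemmas
import Pool.Agent.Taut.Wirtinger
import Pool.Agent.Taut.MorseLemmas
import Pool.Agent.Taut.Homology

/-!
# The energy functional of the metric `dx² + dy² / (1 + x²)`; tautness of the axis `x = 0`
-/

open MeasureTheory Set Filter Topology
open scoped ContDiff ENNReal

noncomputable section

namespace Pool.Agent.Taut

lemma ae_Icc_iff {P : ℝ → Prop} :
    (∀ᵐ t ∂μ01, P t) ↔ ∀ᵐ t ∂(volume : Measure ℝ), t ∈ Icc (0:ℝ) 1 → P t :=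
  ae_restrict_iff' measurableSet_Icc

lemma integral_congr01 {f g : ℝ → ℝ} (h : ∀ᵐ t ∂μ01, f t = g t) :
    ∫ t in (0:ℝ)..1, f t = ∫ t in (0:ℝ)..1, g t := by
  rw [intervalIntegral_eq, intervalIntegral_eq]
  exact integral_congr_ae h

lemma primitive_congr {f g : ℝ → ℝ} (h : ∀ᵐ t ∂μ01, f t = g t) {t : ℝ} (ht : t ∈ Icc (0:ℝ) 1) :
    ∫ s in (0:ℝ)..t, f s = ∫ s in (0:ℝ)..t, g s := by
  apply intervalIntegral.integral_congr_ae
  filter_upwards [ae_Icc_iff.1 h] with s hs hs2
  rw [uIoc_of_le ht.1] at hs2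
  exact hs ⟨hs2.1.le, hs2.2.trans ht.2⟩

/-- The energy in terms of the coordinates of the velocity. -/
lemma energy_of_ae (p : V 2) {v : Vel 2} {f0 f1 : ℝ → ℝ} (h0 : ∀ᵐ t ∂μ01, v.fn t 0 = f0 t)
    (h1 : ∀ᵐ t ∂μ01, v.fn t 1 = f1 t) :
    G0.energy p v
      = ∫ t in (0:ℝ)..1, (f0 t ^ 2 + f1 t ^ 2 / (1 + (p 0 + ∫ s in (0:ℝ)..t, f0 s) ^ 2)) := by
  rw [RMetric.energy]
  apply integral_congr01
  filter_upwards [h0, h1, ae_restrict_mem measurableSet_Icc] with t ht0 ht1 ht
  rw [G0_inner, path_coord p v 0 ht, primitive_congr h0 ht, ht0, ht1]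
  ring

lemma energy_eq (p : V 2) (v : Vel 2) :
    G0.energy p v
      = ∫ t in (0:ℝ)..1, (v.fn t 0 ^ 2 + v.fn t 1 ^ 2 / (1 + (p 0 + ∫ s in (0:ℝ)..t, v.fn s 0) ^ 2)) :=
  energy_of_ae p (ae_of_all _ fun _ => rfl) (ae_of_all _ fun _ => rfl)

lemma intervalIntegrable_sq (v : Vel 2) (i : Fin 2) :
    IntervalIntegrable (fun t => v.fn t i ^ 2) volume 0 1 :=
  (intervalIntegrable_iff' _).2 (memLp_coord v i).integrable_sq

lemma intervalIntegrable_coord' (v : Vel 2) (i : Fin 2) :
    IntervalIntegrable (fun t => v.fn t i) volume 0 1 :=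
  (intervalIntegrable_iff' _).2 (integrable_coord v i)

lemma intervalIntegrable_div {f x : ℝ → ℝ} (hf : IntervalIntegrable f volume 0 1)
    (hx : ContinuousOn x (uIcc 0 1)) :
    IntervalIntegrable (fun t => f t / (1 + x t ^ 2)) volume 0 1 := by
  have h : ContinuousOn (fun t => (1 + x t ^ 2)⁻¹) (uIcc 0 1) :=
    (continuousOn_const.add (hx.pow 2)).inv₀ (fun t _ => (one_add_sq_pos _).ne')
  have := hf.mul_continuousOn h
  simpa [div_eq_mul_inv] using this

/-- The first coordinate of a path is continuous. -/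
lemma continuousOn_x (p : V 2) (v : Vel 2) :
    ContinuousOn (fun t => p 0 + ∫ s in (0:ℝ)..t, v.fn s 0) (uIcc 0 1) :=
  continuousOn_const.add (continuousOn_primitive (intervalIntegrable_coord' v 0))

lemma norm_sq_vel_two (v : Vel 2) :
    ‖v‖ ^ 2 = (∫ t in (0:ℝ)..1, v.fn t 0 ^ 2) + ∫ t in (0:ℝ)..1, v.fn t 1 ^ 2 := by
  rw [norm_sq_vel, Fin.sum_univ_two, intervalIntegral_eq, intervalIntegral_eq]

/-- The axis `x = 0`. -/
def axis : Set (V 2) := {x | x 0 = 0}

lemma mem_pathSpace_axis (p : V 2) (v : Vel 2) :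
    v ∈ pathSpace p axis ↔ p 0 + ∫ t in (0:ℝ)..1, v.fn t 0 = 0 := by
  rw [pathSpace, axis, mem_ofPred_eq, mem_ofPred_eq, path_coord p v 0 (by simp)]

/-- The horizontal segment from `p` to the axis. -/
def horiz (p : V 2) : Vel 2 := toVel (fun _ => !₂[-(p 0), 0]) continuous_const

lemma horiz_ae (p : V 2) :
    (∀ᵐ t ∂μ01, (horiz p).fn t 0 = -(p 0)) ∧ (∀ᵐ t ∂μ01, (horiz p).fn t 1 = 0) := by
  have h : ∀ᵐ t ∂μ01, (horiz p).fn t = !₂[-(p 0), 0] := toVel_ae _ _
  constructor
  · filter_upwards [h] with t ht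
    rw [ht]; simp
  · filter_upwards [h] with t ht
    rw [ht]; simp

lemma horiz_mem (p : V 2) : horiz p ∈ pathSpace p axis := by
  rw [mem_pathSpace_axis, integral_congr01 (horiz_ae p).1]
  simp

lemma energy_horiz (p : V 2) : G0.energy p (horiz p) = p 0 ^ 2 := by
  rw [energy_of_ae p (horiz_ae p).1 (horiz_ae p).2]
  simp

lemma sub_horiz_ae (p : V 2) (v : Vel 2) :
    (∀ᵐ t ∂μ01, (v - horiz p : Vel 2).fn t 0 = v.fn t 0 + p 0) ∧
    (∀ᵐ t ∂μ01, (v - horiz p : Vel 2).fn t 1 = v.fn t 1) := by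
  constructor
  · filter_upwards [fn_sub_ae v (horiz p), (horiz_ae p).1] with t ht ht2
    rw [ht]; simp [ht2]
  · filter_upwards [fn_sub_ae v (horiz p), (horiz_ae p).2] with t ht ht2
    rw [ht]; simp [ht2]

lemma energy_sub_horiz (p : V 2) {v : Vel 2} (hv : v ∈ pathSpace p axis) :
    G0.energy p v - G0.energy p (horiz p)
      = (∫ t in (0:ℝ)..1, (v.fn t 0 + p 0) ^ 2)
        + ∫ t in (0:ℝ)..1, v.fn t 1 ^ 2 / (1 + (p 0 + ∫ s in (0:ℝ)..t, v.fn s 0) ^ 2) := by
  rw [mem_pathSpace_axis] at hv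
  have i0 := intervalIntegrable_sq v 0
  have i1 := intervalIntegrable_div (intervalIntegrable_sq v 1) (continuousOn_x p v)
  have i2 := intervalIntegrable_coord' v 0
  have e1 : ∫ t in (0:ℝ)..1, (v.fn t 0 + p 0) ^ 2
      = (∫ t in (0:ℝ)..1, v.fn t 0 ^ 2) + 2 * p 0 * (∫ t in (0:ℝ)..1, v.fn t 0) + p 0 ^ 2 := by
    have : (fun t => (v.fn t 0 + p 0) ^ 2) = fun t => v.fn t 0 ^ 2 + 2 * p 0 * v.fn t 0 + p 0 ^ 2 := by
      funext t; ring
    rw [this, intervalIntegral.integral_add (i0.add (i2.const_mul _)) (by simp),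
      intervalIntegral.integral_add i0 (i2.const_mul _), intervalIntegral.integral_const_mul]
    simp
  rw [energy_eq, energy_horiz, intervalIntegral.integral_add i0 i1, e1]
  have : ∫ t in (0:ℝ)..1, v.fn t 0 = - p 0 := by linarith
  rw [this]
  ring

lemma norm_sub_horiz (p : V 2) (v : Vel 2) :
    ‖v - horiz p‖ ^ 2 = (∫ t in (0:ℝ)..1, (v.fn t 0 + p 0) ^ 2) + ∫ t in (0:ℝ)..1, v.fn t 1 ^ 2 := by
  rw [norm_sq_vel_two]
  congr 1
  · apply integral_congr01
    filter_upwards [(sub_horiz_ae p v).1] with t ht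
    rw [ht]
  · apply integral_congr01
    filter_upwards [(sub_horiz_ae p v).2] with t ht
    rw [ht]

lemma energy_horiz_le (p : V 2) {v : Vel 2} (hv : v ∈ pathSpace p axis) :
    G0.energy p (horiz p) ≤ G0.energy p v := by
  have h := energy_sub_horiz p hv
  have h1 : 0 ≤ ∫ t in (0:ℝ)..1, (v.fn t 0 + p 0) ^ 2 :=
    intervalIntegral.integral_nonneg zero_le_one (fun t _ => sq_nonneg _)
  have h2 : 0 ≤ ∫ t in (0:ℝ)..1, v.fn t 1 ^ 2 / (1 + (p 0 + ∫ s in (0:ℝ)..t, v.fn s 0) ^ 2) :=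
    intervalIntegral.integral_nonneg zero_le_one
      (fun t _ => div_nonneg (sq_nonneg _) (one_add_sq_pos _).le)
  linarith

lemma energy_le_horiz (p : V 2) {v : Vel 2} (hv : v ∈ pathSpace p axis) :
    G0.energy p v - G0.energy p (horiz p) ≤ ‖v - horiz p‖ ^ 2 := by
  rw [energy_sub_horiz p hv, norm_sub_horiz]
  gcongr
  apply intervalIntegral.integral_mono_on zero_le_one
  · exact intervalIntegrable_div (intervalIntegrable_sq v 1) (continuousOn_x p v)
  · exact intervalIntegrable_sq v 1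
  · intro t _
    exact div_le_self (sq_nonneg _) (by nlinarith [sq_nonneg (p 0 + ∫ s in (0:ℝ)..t, v.fn s 0)])

lemma isCriticalPoint_horiz (p : V 2) :
    IsCriticalPoint (G0.energy p) (pathSpace p axis) (horiz p) := by
  refine isCriticalPoint_of_bound (horiz_mem p) 1 (fun v hv _ => ?_)
  rw [one_mul, abs_le]
  have h1 := energy_horiz_le p hv
  have h2 := energy_le_horiz p hv
  constructor
  · have : 0 ≤ ‖v - horiz p‖ ^ 2 := sq_nonneg _
    linarith
  · exact h2

/-- The projection on the second coordinate. -/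
def proj1 : V 2 →L[ℝ] V 2 := (pr 1).smulRight (EuclideanSpace.single 1 1)

lemma proj1_zero (v : V 2) : proj1 v 0 = 0 := by simp [proj1]
lemma proj1_one (v : V 2) : proj1 v 1 = v 1 := by simp [proj1]

lemma integral_eq_zero_ae {f : ℝ → ℝ} (hf : ∀ t, 0 ≤ f t) (hi : IntervalIntegrable f volume 0 1)
    (h : ∫ t in (0:ℝ)..1, f t = 0) : ∀ᵐ t ∂μ01, f t = 0 := by
  rw [intervalIntegral_eq] at h
  exact (integral_eq_zero_iff_of_nonneg hf ((intervalIntegrable_iff' _).1 hi)).1 h

/-- Uniqueness of the critical point. -/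
lemma isCriticalPoint_unique (p : V 2) {u : Vel 2}
    (hu : IsCriticalPoint (G0.energy p) (pathSpace p axis) u) : u = horiz p := by
  have hmem := (mem_pathSpace_axis p u).1 hu.1
  have i0 := intervalIntegrable_sq u 0
  have i1 := intervalIntegrable_div (intervalIntegrable_sq u 1) (continuousOn_x p u)
  have i2 := intervalIntegrable_coord' u 0
  -- first variation in the direction of `y`
  have h1 : ∀ᵐ t ∂μ01, u.fn t 1 = 0 := by
    set X : Vel 2 := compVel proj1 u with hX
    have hXae : ∀ᵐ t ∂μ01, X.fn t = proj1 (u.fn t) := compVel_ae proj1 u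
    have hc : ∀ s : ℝ, (∀ᵐ t ∂μ01, (u + s • X : Vel 2).fn t 0 = u.fn t 0) ∧
        (∀ᵐ t ∂μ01, (u + s • X : Vel 2).fn t 1 = (1 + s) * u.fn t 1) := by
      intro s
      constructor
      · filter_upwards [hXae, fn_add_ae u (s • X), fn_smul_ae s X] with t h1 h2 h3
        rw [h2, h3, h1]
        simp [proj1_zero]
      · filter_upwards [hXae, fn_add_ae u (s • X), fn_smul_ae s X] with t h1 h2 h3
        rw [h2, h3, h1]
        simp [proj1_one]
        ring
    have hd := hu.2 (fun s => u + s • X) (by fun_prop) (by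
      intro s
      rw [mem_pathSpace_axis, integral_congr01 (hc s).1]
      exact hmem) (by simp)
    have hE : ∀ s : ℝ, G0.energy p (u + s • X) = (∫ t in (0:ℝ)..1, u.fn t 0 ^ 2)
        + (1 + s) ^ 2 * ∫ t in (0:ℝ)..1, u.fn t 1 ^ 2 / (1 + (p 0 + ∫ s in (0:ℝ)..t, u.fn s 0) ^ 2) := by
      intro s
      rw [energy_of_ae p (hc s).1 (hc s).2]
      have : (fun t => u.fn t 0 ^ 2 + ((1 + s) * u.fn t 1) ^ 2 / (1 + (p 0 + ∫ s in (0:ℝ)..t, u.fn s 0) ^ 2))
          = fun t => u.fn t 0 ^ 2 + (1 + s) ^ 2 *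
            (u.fn t 1 ^ 2 / (1 + (p 0 + ∫ s in (0:ℝ)..t, u.fn s 0) ^ 2)) := by
        funext t; ring
      rw [this, intervalIntegral.integral_add i0 (i1.const_mul _),
        intervalIntegral.integral_const_mul]
    set J := ∫ t in (0:ℝ)..1, u.fn t 1 ^ 2 / (1 + (p 0 + ∫ s in (0:ℝ)..t, u.fn s 0) ^ 2) with hJ
    have hd2 : HasDerivAt (fun s : ℝ => G0.energy p (u + s • X)) (2 * J) 0 := by
      have : (fun s : ℝ => G0.energy p (u + s • X))
          = fun s : ℝ => (∫ t in (0:ℝ)..1, u.fn t 0 ^ 2) + (1 + s) ^ 2 * J := funext hE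
      rw [this]
      have h3 : HasDerivAt (fun s : ℝ => (1 + s) ^ 2) 2 0 := by
        have := ((hasDerivAt_id' (0:ℝ)).const_add 1).fun_pow 2
        exact this.congr_deriv (by norm_num)
      exact (h3.mul_const J).const_add _
    have hJ0 : J = 0 := by
      have := hd.unique hd2
      linarith
    have := integral_eq_zero_ae
      (fun t => div_nonneg (sq_nonneg (u.fn t 1)) (one_add_sq_pos (p 0 + ∫ s in (0:ℝ)..t, u.fn s 0)).le)
      i1 hJ0
    filter_upwards [this] with t ht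
    rw [div_eq_zero_iff] at ht
    rcases ht with ht | ht
    · exact pow_eq_zero_iff (two_ne_zero) |>.1 ht
    · exact absurd ht (one_add_sq_pos _).ne'
  -- first variation in the direction of `x`
  have h0 : ∀ᵐ t ∂μ01, u.fn t 0 = - p 0 := by
    set X : Vel 2 := u - horiz p with hX
    have hc : ∀ s : ℝ, (∀ᵐ t ∂μ01, (u + s • X : Vel 2).fn t 0 = u.fn t 0 + s * (u.fn t 0 + p 0)) ∧
        (∀ᵐ t ∂μ01, (u + s • X : Vel 2).fn t 1 = 0) := by
      intro s
      constructor
      · filter_upwards [(sub_horiz_ae p u).1, fn_add_ae u (s • X), fn_smul_ae s X]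
          with t h1 h2 h3
        rw [h2, h3, PiLp.add_apply, PiLp.smul_apply, h1, smul_eq_mul]
      · filter_upwards [(sub_horiz_ae p u).2, fn_add_ae u (s • X), fn_smul_ae s X, h1]
          with t h1 h2 h3 h4
        rw [h2, h3, PiLp.add_apply, PiLp.smul_apply, h1, h4,
          smul_zero, add_zero]
    have e0 : ∫ t in (0:ℝ)..1, (u.fn t 0 + p 0) = 0 := by
      rw [intervalIntegral.integral_add i2 (by simp)]
      simp
      linarith
    have iA : IntervalIntegrable (fun t => u.fn t 0 + p 0) volume 0 1 := i2.add (by simp)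
    have iB : IntervalIntegrable (fun t => (u.fn t 0 + p 0) ^ 2) volume 0 1 := by
      have : (fun t => (u.fn t 0 + p 0) ^ 2) = fun t => u.fn t 0 ^ 2 + 2 * p 0 * u.fn t 0 + p 0 ^ 2 := by
        funext t; ring
      rw [this]
      exact (i0.add (i2.const_mul _)).add (by simp)
    have hd := hu.2 (fun s => u + s • X) (by fun_prop) (by
      intro s
      rw [mem_pathSpace_axis, integral_congr01 (hc s).1,
        intervalIntegral.integral_add i2 (iA.const_mul s), intervalIntegral.integral_const_mul, e0]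
      simpa using hmem) (by simp)
    set K := ∫ t in (0:ℝ)..1, (u.fn t 0 + p 0) ^ 2 with hK
    have hE : ∀ s : ℝ, G0.energy p (u + s • X) = p 0 ^ 2 + (1 + s) ^ 2 * K := by
      intro s
      rw [energy_of_ae p (hc s).1 (hc s).2]
      have : (fun t => (u.fn t 0 + s * (u.fn t 0 + p 0)) ^ 2
            + (0:ℝ) ^ 2 / (1 + (p 0 + ∫ r in (0:ℝ)..t, (u.fn r 0 + s * (u.fn r 0 + p 0))) ^ 2))
          = fun t => (1 + s) ^ 2 * (u.fn t 0 + p 0) ^ 2 + (-(2 * p 0 * (1 + s)) * (u.fn t 0 + p 0)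
            + p 0 ^ 2) := by
        funext t; simp; ring
      rw [this, intervalIntegral.integral_add (iB.const_mul _) ((iA.const_mul _).add (by simp)),
        intervalIntegral.integral_add (iA.const_mul _) (by simp),
        intervalIntegral.integral_const_mul, intervalIntegral.integral_const_mul, e0]
      simp
      ring
    have hd2 : HasDerivAt (fun s : ℝ => G0.energy p (u + s • X)) (2 * K) 0 := by
      have : (fun s : ℝ => G0.energy p (u + s • X))
          = fun s : ℝ => p 0 ^ 2 + (1 + s) ^ 2 * K := funext hE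
      rw [this]
      have h3 : HasDerivAt (fun s : ℝ => (1 + s) ^ 2) 2 0 := by
        have := ((hasDerivAt_id' (0:ℝ)).const_add 1).fun_pow 2
        exact this.congr_deriv (by norm_num)
      exact (h3.mul_const K).const_add _
    have hK0 : K = 0 := by
      have := hd.unique hd2
      linarith
    have := integral_eq_zero_ae (fun t => sq_nonneg (u.fn t 0 + p 0)) iB hK0
    filter_upwards [this] with t ht
    have := pow_eq_zero_iff (two_ne_zero) |>.1 ht
    linarith
  apply vel_ext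
  filter_upwards [h0, h1, (horiz_ae p).1, (horiz_ae p).2] with t a1 a2 a3 a4
  exact V2_ext (by rw [a1, a3]) (by rw [a2, a4])

lemma convex_pathSpace_axis (p : V 2) : Convex ℝ (pathSpace p axis) := by
  intro u hu v hv a b ha hb hab
  rw [mem_pathSpace_axis] at *
  have h : ∀ᵐ t ∂μ01, (a • u + b • v : Vel 2).fn t 0 = a * u.fn t 0 + b * v.fn t 0 := by
    filter_upwards [fn_add_ae (a • u) (b • v), fn_smul_ae a u, fn_smul_ae b v]
      with t h1 h2 h3
    rw [h1, h2, h3]
    simp
  rw [integral_congr01 h, intervalIntegral.integral_add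
    ((intervalIntegrable_coord' u 0).const_mul a) ((intervalIntegrable_coord' v 0).const_mul b),
    intervalIntegral.integral_const_mul, intervalIntegral.integral_const_mul]
  have : p 0 = a * p 0 + b * p 0 := by rw [← add_mul, hab, one_mul]
  rw [this]
  linear_combination a * hu + b * hv

/-- The axis `x = 0` is taut; in fact `E_p` is perfect for every `p`. -/
lemma isPerfect_axis (p : V 2) : IsPerfect (G0.energy p) (pathSpace p axis) :=
  isPerfect_of_unique (isCriticalPoint_horiz p) (fun _ hv => isCriticalPoint_unique p hv)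
    (fun _ hv => energy_horiz_le p hv)
    (betti_convex (convex_pathSpace_axis p) ⟨_, horiz_mem p⟩)

lemma isTaut_axis : G0.IsTaut axis := fun p _ => isPerfect_axis p

end Pool.Agent.Taut
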