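import Pool.Agent.Taut.Defs

/-!
# The metric `dx² + dy² / (1 + x²)` on `ℝ²`
-/

open MeasureTheory Set Filter Topology
open scoped ContDiff

noncomputable section

namespace Pool.Agent.Taut

/-- coordinate functional -/
def pr (i : Fin 2) : V 2 →L[ℝ] ℝ := EuclideanSpace.proj i

@[simp] lemma pr_apply (i : Fin 2) (v : V 2) : pr i v = v i := rfl

lemma one_add_sq_pos (a : ℝ) : 0 < 1 + a ^ 2 := by positivity

lemma V2_ext {v w : V 2} (h0 : v 0 = w 0) (h1 : v 1 = w 1) : v = w := by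
  ext i; fin_cases i
  · exact h0
  · exact h1

/-- The coefficients of the metric `dx² + dy² / (1 + x²)`. -/
def gmat (x : V 2) : Matrix (Fin 2) (Fin 2) ℝ := Matrix.diagonal ![1, (1 + (x 0) ^ 2)⁻¹]

lemma contDiff_coord (i : Fin 2) : ContDiff ℝ ∞ (fun x : V 2 => x i) := (pr i).contDiff

lemma contDiff_inv_one_add_sq : ContDiff ℝ ∞ (fun x : V 2 => (1 + (x 0) ^ 2)⁻¹) := by
  have h1 : ContDiff ℝ ∞ (fun x : V 2 => (1 + (x 0) ^ 2)) :=
    contDiff_const.add ((contDiff_coord 0).pow 2)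
  exact h1.fun_inv (fun x => (one_add_sq_pos _).ne')

/-- The metric `dx² + dy² / (1 + x²)` on `ℝ²`. -/
def G0 : RMetric 2 where
  g := gmat
  smooth i j := by
    fin_cases i <;> fin_cases j
    · simpa [gmat] using contDiff_const
    · simpa [gmat] using contDiff_const
    · simpa [gmat] using contDiff_const
    · simpa [gmat] using contDiff_inv_one_add_sq
  posDef x := by
    rw [gmat, Matrix.posDef_diagonal_iff]
    intro i
    fin_cases i
    · simp
    · simpa using one_add_sq_pos (x 0)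

lemma G0_inner (x v w : V 2) : G0.inner x v w = v 0 * w 0 + v 1 * w 1 / (1 + (x 0) ^ 2) := by
  simp [RMetric.inner, G0, gmat, Fin.sum_univ_two]
  ring

lemma G0_inner_self_nonneg (x v : V 2) : 0 ≤ G0.inner x v v := by
  rw [G0_inner]
  have := one_add_sq_pos (x 0)
  have h1 : 0 ≤ v 1 * v 1 / (1 + x 0 ^ 2) := div_nonneg (mul_self_nonneg _) this.le
  have h2 : 0 ≤ v 0 * v 0 := mul_self_nonneg _
  linarith

lemma fderiv_G0_inner (x w v : V 2) :
    fderiv ℝ (fun x => G0.inner x v v) x w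
      = -(2 * x 0 * w 0) * (v 1 * v 1) / (1 + x 0 ^ 2) ^ 2 := by
  have h0 : HasFDerivAt (fun x : V 2 => pr 0 x) (pr 0) x := (pr 0).hasFDerivAt
  have h2 : HasDerivAt (fun a : ℝ => v 0 * v 0 + v 1 * v 1 / (1 + a ^ 2))
      (v 1 * v 1 * (-(2 * x 0) / (1 + x 0 ^ 2) ^ 2)) (pr 0 x) := by
    have h3 : HasDerivAt (fun a : ℝ => 1 + a ^ 2) (2 * x 0) (pr 0 x) := by
      simpa using (hasDerivAt_pow 2 (pr 0 x)).const_add 1
    have h4 := h3.fun_inv (one_add_sq_pos _).ne'
    have h5 := (h4.const_mul (v 1 * v 1)).const_add (v 0 * v 0)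
    simpa [div_eq_mul_inv] using h5
  have h1 := HasDerivAt.comp_hasFDerivAt
    (h₂ := fun a : ℝ => v 0 * v 0 + v 1 * v 1 / (1 + a ^ 2)) x h2 h0
  have h6 : (fun x => G0.inner x v v)
      = (fun a : ℝ => v 0 * v 0 + v 1 * v 1 / (1 + a ^ 2)) ∘ (fun x : V 2 => pr 0 x) := by
    funext x
    simp [G0_inner]
  rw [h6, h1.fderiv]
  simp
  ring

end Pool.Agent.Taut
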