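import Pool.Agent.Taut.Energy

/-!
# Two minimisers of the energy between `(0, η + 4)` and `(0, η)`
-/

open MeasureTheory Set Filter Topology
open scoped ContDiff ENNReal

noncomputable section

namespace Pool.Agent.Taut

lemma mem_pathSpace_point (p q : V 2) (v : Vel 2) :
    v ∈ pathSpace p {q} ↔ (p 0 + ∫ t in (0:ℝ)..1, v.fn t 0 = q 0) ∧
      (p 1 + ∫ t in (0:ℝ)..1, v.fn t 1 = q 1) := by
  rw [pathSpace, mem_ofPred_eq, mem_singleton_iff, ← path_coord p v 0 (by simp),
    ← path_coord p v 1 (by simp)]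
  constructor
  · intro h; rw [h]; exact ⟨rfl, rfl⟩
  · intro h; exact V2_ext h.1 h.2

lemma convex_pathSpace_point (p q : V 2) : Convex ℝ (pathSpace p {q}) := by
  intro u hu v hv a b ha hb hab
  rw [mem_pathSpace_point] at *
  have h : ∀ i, ∀ᵐ t ∂μ01, (a • u + b • v : Vel 2).fn t i = a * u.fn t i + b * v.fn t i := by
    intro i
    filter_upwards [fn_add_ae (a • u) (b • v), fn_smul_ae a u, fn_smul_ae b v]
      with t h1 h2 h3
    rw [h1, h2, h3]
    simp
  have key : ∀ i, p i + ∫ t in (0:ℝ)..1, (a • u + b • v : Vel 2).fn t i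
      = a * (p i + ∫ t in (0:ℝ)..1, u.fn t i) + b * (p i + ∫ t in (0:ℝ)..1, v.fn t i) := by
    intro i
    rw [integral_congr01 (h i), intervalIntegral.integral_add
      ((intervalIntegrable_coord' u i).const_mul a) ((intervalIntegrable_coord' v i).const_mul b),
      intervalIntegral.integral_const_mul, intervalIntegral.integral_const_mul]
    have : p i = a * p i + b * p i := by rw [← add_mul, hab, one_mul]
    linear_combination this
  rw [key, key, hu.1, hu.2, hv.1, hv.2, ← add_mul, ← add_mul, hab]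
  simp

lemma abs_primitive_le (Z : Vel 2) (i : Fin 2) {t : ℝ} (ht : t ∈ Icc (0:ℝ) 1) :
    |∫ s in (0:ℝ)..t, Z.fn s i| ≤ ‖Z‖ := by
  have hsub : uIcc (0:ℝ) t ⊆ uIcc 0 1 := by
    rw [uIcc_of_le ht.1, uIcc_of_le zero_le_one]
    exact Icc_subset_Icc le_rfl ht.2
  have i1 := (intervalIntegrable_coord' Z i).mono_set hsub
  have i2 := (intervalIntegrable_sq Z i).mono_set hsub
  set c := ∫ s in (0:ℝ)..t, Z.fn s i with hc
  have h1 : 0 ≤ ∫ s in (0:ℝ)..t, (Z.fn s i - c) ^ 2 :=
    intervalIntegral.integral_nonneg ht.1 (fun t _ => sq_nonneg _)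
  have h2 : ∫ s in (0:ℝ)..t, (Z.fn s i - c) ^ 2
      = (∫ s in (0:ℝ)..t, Z.fn s i ^ 2) - 2 * c * c + c ^ 2 * t := by
    have : (fun s => (Z.fn s i - c) ^ 2) = fun s => Z.fn s i ^ 2 - 2 * c * Z.fn s i + c ^ 2 := by
      funext s; ring
    rw [this, intervalIntegral.integral_add (i2.sub (i1.const_mul _)) (by simp),
      intervalIntegral.integral_sub i2 (i1.const_mul _), intervalIntegral.integral_const_mul, ← hc]
    simp
    ring
  have h3 : ∫ s in (0:ℝ)..t, Z.fn s i ^ 2 ≤ ∫ s in (0:ℝ)..1, Z.fn s i ^ 2 := by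
    apply intervalIntegral.integral_mono_interval le_rfl ht.1 ht.2
    · exact ae_of_all _ (fun s => sq_nonneg _)
    · exact intervalIntegrable_sq Z i
  have h4 : ∫ s in (0:ℝ)..1, Z.fn s i ^ 2 ≤ ‖Z‖ ^ 2 := by
    rw [norm_sq_vel_two]
    have a0 : 0 ≤ ∫ s in (0:ℝ)..1, Z.fn s 0 ^ 2 :=
      intervalIntegral.integral_nonneg zero_le_one (fun t _ => sq_nonneg _)
    have a1 : 0 ≤ ∫ s in (0:ℝ)..1, Z.fn s 1 ^ 2 :=
      intervalIntegral.integral_nonneg zero_le_one (fun t _ => sq_nonneg _)
    fin_cases i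
    · simpa using a1
    · simpa using a0
  have h5 : c ^ 2 ≤ ‖Z‖ ^ 2 := by nlinarith [ht.2, sq_nonneg c]
  exact abs_le_of_sq_le_sq h5 (norm_nonneg _)

/-- The velocity of the curve `(a sin (π t), y)` with `y' = - π (1 + x²)`. -/
def minFun (a : ℝ) (t : ℝ) : V 2 :=
  !₂[a * (Real.pi * Real.cos (Real.pi * t)), -(Real.pi * (1 + (a * Real.sin (Real.pi * t)) ^ 2))]

lemma continuous_minFun (a : ℝ) : Continuous (minFun a) := by
  have h : ContDiff ℝ 0 (minFun a) := by
    rw [contDiff_euclidean]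
    intro i
    fin_cases i
    · show ContDiff ℝ 0 (fun t => a * (Real.pi * Real.cos (Real.pi * t)))
      fun_prop
    · show ContDiff ℝ 0 (fun t => -(Real.pi * (1 + (a * Real.sin (Real.pi * t)) ^ 2)))
      fun_prop
  exact h.continuous

def minVel (a : ℝ) : Vel 2 := toVel (minFun a) (continuous_minFun a)

lemma minVel_ae (a : ℝ) :
    (∀ᵐ t ∂μ01, (minVel a).fn t 0 = a * (Real.pi * Real.cos (Real.pi * t))) ∧
    (∀ᵐ t ∂μ01, (minVel a).fn t 1 = -(Real.pi * (1 + (a * Real.sin (Real.pi * t)) ^ 2))) := by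
  have h : ∀ᵐ t ∂μ01, (minVel a).fn t = minFun a t := toVel_ae _ _
  constructor
  · filter_upwards [h] with t ht
    rw [ht]; simp [minFun]
  · filter_upwards [h] with t ht
    rw [ht]; simp [minFun]

lemma hasDerivAt_sin_pi (t : ℝ) :
    HasDerivAt (fun t => Real.sin (Real.pi * t)) (Real.pi * Real.cos (Real.pi * t)) t := by
  have h1 : HasDerivAt (fun t => Real.pi * t) Real.pi t := by
    simpa using (hasDerivAt_id t).const_mul Real.pi
  exact h1.sin.congr_deriv (by ring)

lemma primitive_minVel_zero (a t : ℝ) :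
    ∫ s in (0:ℝ)..t, a * (Real.pi * Real.cos (Real.pi * s)) = a * Real.sin (Real.pi * t) := by
  have h : ∀ x ∈ uIcc 0 t, HasDerivAt (fun t => a * Real.sin (Real.pi * t))
      (a * (Real.pi * Real.cos (Real.pi * x))) x := fun x _ => (hasDerivAt_sin_pi x).const_mul a
  rw [intervalIntegral.integral_eq_sub_of_hasDerivAt h (by
    apply Continuous.intervalIntegrable; fun_prop)]
  simp

lemma integral_sin_sq_pi : ∫ s in (0:ℝ)..1, Real.sin (Real.pi * s) ^ 2 = 1 / 2 := by
  have h : ∀ x ∈ uIcc (0:ℝ) 1, HasDerivAt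
      (fun t => t / 2 - Real.sin (Real.pi * t) * Real.cos (Real.pi * t) / (2 * Real.pi))
      (Real.sin (Real.pi * x) ^ 2) x := by
    intro x _
    have h1 : HasDerivAt (fun t => Real.pi * t) Real.pi x := by
      simpa using (hasDerivAt_id x).const_mul Real.pi
    have h2 := ((hasDerivAt_id' x).div_const 2).fun_sub
      ((h1.sin.fun_mul h1.cos).div_const (2 * Real.pi))
    refine h2.congr_deriv ?_
    have := Real.pi_pos.ne'
    field_simp
    have h3 := Real.sin_sq_add_cos_sq (Real.pi * x)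
    linear_combination -h3
  rw [intervalIntegral.integral_eq_sub_of_hasDerivAt h (by
    apply Continuous.intervalIntegrable; fun_prop)]
  simp

lemma integral_minVel_one (a : ℝ) (ha : a ^ 2 = 8 / Real.pi - 2) :
    ∫ t in (0:ℝ)..1, -(Real.pi * (1 + (a * Real.sin (Real.pi * t)) ^ 2)) = -4 := by
  have : (fun t => -(Real.pi * (1 + (a * Real.sin (Real.pi * t)) ^ 2)))
      = fun t => -Real.pi + -(Real.pi * a ^ 2) * Real.sin (Real.pi * t) ^ 2 := by
    funext t; ring
  rw [this, intervalIntegral.integral_add (by simp) (by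
    apply Continuous.intervalIntegrable; fun_prop), intervalIntegral.integral_const_mul,
    integral_sin_sq_pi, ha]
  have := Real.pi_pos.ne'
  simp
  field_simp
  ring

section

variable {η a : ℝ} {p q : V 2}

lemma minVel_mem (ha : a ^ 2 = 8 / Real.pi - 2) (hp0 : p 0 = 0)
    (hp1 : p 1 = η + 4) (hq0 : q 0 = 0) (hq1 : q 1 = η) :
    minVel a ∈ pathSpace p {q} := by
  rw [mem_pathSpace_point, integral_congr01 (minVel_ae a).1, integral_congr01 (minVel_ae a).2,
    integral_minVel_one a ha, primitive_minVel_zero, hp0, hp1, hq0, hq1]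
  simp

/-- The second variation formula, exact. -/
lemma energy_sub_minVel (ha : a ^ 2 = 8 / Real.pi - 2) (hp0 : p 0 = 0)
    (hp1 : p 1 = η + 4) (hq0 : q 0 = 0) (hq1 : q 1 = η) {v : Vel 2} (hv : v ∈ pathSpace p {q}) :
    G0.energy p v - G0.energy p (minVel a)
      = (∫ t in (0:ℝ)..1, (v - minVel a : Vel 2).fn t 0 ^ 2)
        - Real.pi ^ 2 * (∫ t in (0:ℝ)..1, (∫ s in (0:ℝ)..t, (v - minVel a : Vel 2).fn s 0) ^ 2)
        + ∫ t in (0:ℝ)..1, (Real.pi * (2 * (a * Real.sin (Real.pi * t))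
            * (∫ s in (0:ℝ)..t, (v - minVel a : Vel 2).fn s 0)
            + (∫ s in (0:ℝ)..t, (v - minVel a : Vel 2).fn s 0) ^ 2)
            + (v - minVel a : Vel 2).fn t 1) ^ 2
          / (1 + (a * Real.sin (Real.pi * t)
            + ∫ s in (0:ℝ)..t, (v - minVel a : Vel 2).fn s 0) ^ 2) := by
  set Z : Vel 2 := v - minVel a with hZ
  have hv0 : ∀ᵐ t ∂μ01, v.fn t 0 = a * (Real.pi * Real.cos (Real.pi * t)) + Z.fn t 0 := by
    filter_upwards [fn_sub_ae v (minVel a), (minVel_ae a).1] with t h1 h2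
    rw [hZ, h1, PiLp.sub_apply, h2]; ring
  have hv1 : ∀ᵐ t ∂μ01, v.fn t 1
      = -(Real.pi * (1 + (a * Real.sin (Real.pi * t)) ^ 2)) + Z.fn t 1 := by
    filter_upwards [fn_sub_ae v (minVel a), (minVel_ae a).2] with t h1 h2
    rw [hZ, h1, PiLp.sub_apply, h2]; ring
  have iZ0 := intervalIntegrable_coord' Z 0
  have iZ1 := intervalIntegrable_coord' Z 1
  have iZ02 := intervalIntegrable_sq Z 0
  have iZ12 := intervalIntegrable_sq Z 1
  have hmem := (mem_pathSpace_point p q v).1 hv
  have hmem0 := (mem_pathSpace_point p q (minVel a)).1 (minVel_mem ha hp0 hp1 hq0 hq1)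
  have hZ0 : ∫ t in (0:ℝ)..1, Z.fn t 0 = 0 := by
    have h1 := hmem.1
    rw [integral_congr01 hv0, intervalIntegral.integral_add
      (by apply Continuous.intervalIntegrable; fun_prop) iZ0, primitive_minVel_zero] at h1
    simp [hp0, hq0] at h1
    exact h1
  have hZ1 : ∫ t in (0:ℝ)..1, Z.fn t 1 = 0 := by
    have h1 := hmem.2
    rw [integral_congr01 hv1, intervalIntegral.integral_add
      (by apply Continuous.intervalIntegrable; fun_prop) iZ1, integral_minVel_one a ha] at h1
    simp [hp1, hq1] at h1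
    exact h1
  set z : ℝ → ℝ := fun t => ∫ s in (0:ℝ)..t, Z.fn s 0 with hz
  have hzc : ContinuousOn z (uIcc 0 1) := continuousOn_primitive iZ0
  set x : ℝ → ℝ := fun t => a * Real.sin (Real.pi * t) with hx
  have hxc : Continuous x := by simp only [hx]; fun_prop
  -- energy of v
  have hprim : ∀ t ∈ Icc (0:ℝ) 1, p 0 + ∫ s in (0:ℝ)..t,
      (a * (Real.pi * Real.cos (Real.pi * s)) + Z.fn s 0) = x t + z t := by
    intro t ht
    have hsub : uIcc (0:ℝ) t ⊆ uIcc 0 1 := by
      rw [uIcc_of_le ht.1, uIcc_of_le zero_le_one]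
      exact Icc_subset_Icc le_rfl ht.2
    rw [intervalIntegral.integral_add (by apply Continuous.intervalIntegrable; fun_prop)
      (iZ0.mono_set hsub), primitive_minVel_zero, hp0]
    simp [hx, hz]
  have hprim0 : ∀ t, p 0 + ∫ s in (0:ℝ)..t, (a * (Real.pi * Real.cos (Real.pi * s))) = x t := by
    intro t
    rw [primitive_minVel_zero, hp0]
    simp [hx]
  set g : ℝ → ℝ := fun t => a * (Real.pi * Real.cos (Real.pi * t)) with hg
  have hgc : Continuous g := by simp only [hg]; fun_prop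
  have Ev : G0.energy p v = ∫ t in (0:ℝ)..1, ((g t ^ 2 + Real.pi ^ 2 * (1 + x t ^ 2))
      + (2 * (g t * Z.fn t 0) + Z.fn t 0 ^ 2 - Real.pi ^ 2 * (2 * (x t * z t) + z t ^ 2)
        - 2 * Real.pi * Z.fn t 1
        + (Real.pi * (2 * x t * z t + z t ^ 2) + Z.fn t 1) ^ 2 / (1 + (x t + z t) ^ 2))) := by
    rw [energy_of_ae p hv0 hv1]
    apply integral_congr01
    filter_upwards [ae_restrict_mem measurableSet_Icc] with t ht
    rw [hprim t ht]
    have h1 := (one_add_sq_pos (x t + z t)).ne'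
    field_simp
    ring
  have Eu : G0.energy p (minVel a) = ∫ t in (0:ℝ)..1, (g t ^ 2 + Real.pi ^ 2 * (1 + x t ^ 2)) := by
    rw [energy_of_ae p (minVel_ae a).1 (minVel_ae a).2]
    apply integral_congr01
    filter_upwards with t
    rw [hprim0 t]
    have h1 := (one_add_sq_pos (x t)).ne'
    show g t ^ 2 + (-(Real.pi * (1 + x t ^ 2))) ^ 2 / (1 + x t ^ 2) = _
    field_simp
  -- integration by parts
  have hparts : ∫ t in (0:ℝ)..1, g t * Z.fn t 0 = Real.pi ^ 2 * ∫ t in (0:ℝ)..1, x t * z t := by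
    have hgd : ∀ t, HasDerivAt g (-(Real.pi ^ 2) * x t) t := by
      intro t
      have h1 : HasDerivAt (fun t => Real.pi * t) Real.pi t := by
        simpa using (hasDerivAt_id t).const_mul Real.pi
      have h2 := (h1.cos.const_mul Real.pi).const_mul a
      refine h2.congr_deriv ?_
      simp only [hx]; ring
    rw [integral_by_parts iZ0 hgd (by fun_prop), hZ0]
    have : (fun t => -(Real.pi ^ 2) * x t * (∫ s in (0:ℝ)..t, Z.fn s 0))
        = fun t => -(Real.pi ^ 2) * (x t * z t) := by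
      funext t; simp only [hz]; ring
    rw [this, intervalIntegral.integral_const_mul]
    ring
  -- integrabilities
  have j1 : IntervalIntegrable (fun t => g t ^ 2 + Real.pi ^ 2 * (1 + x t ^ 2)) volume 0 1 := by
    apply Continuous.intervalIntegrable; fun_prop
  have j2 : IntervalIntegrable (fun t => g t * Z.fn t 0) volume 0 1 :=
    iZ0.continuousOn_mul hgc.continuousOn
  have j3 : IntervalIntegrable (fun t => x t * z t) volume 0 1 :=
    (hxc.continuousOn.mul hzc).intervalIntegrable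
  have j4 : IntervalIntegrable (fun t => z t ^ 2) volume 0 1 := (hzc.pow 2).intervalIntegrable
  have hw : ContinuousOn (fun t => Real.pi * (2 * x t * z t + z t ^ 2)) (uIcc 0 1) :=
    continuousOn_const.mul (((continuousOn_const.mul hxc.continuousOn).mul hzc).add (hzc.pow 2))
  have j5 : IntervalIntegrable (fun t => (Real.pi * (2 * x t * z t + z t ^ 2) + Z.fn t 1) ^ 2)
      volume 0 1 := by
    have : (fun t => (Real.pi * (2 * x t * z t + z t ^ 2) + Z.fn t 1) ^ 2)
        = fun t => (Real.pi * (2 * x t * z t + z t ^ 2)) ^ 2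
          + 2 * ((Real.pi * (2 * x t * z t + z t ^ 2)) * Z.fn t 1) + Z.fn t 1 ^ 2 := by
      funext t; ring
    rw [this]
    exact (((hw.pow 2).intervalIntegrable).add ((iZ1.continuousOn_mul hw).const_mul 2)).add iZ12
  have j6 : IntervalIntegrable (fun t => (Real.pi * (2 * x t * z t + z t ^ 2) + Z.fn t 1) ^ 2
      / (1 + (x t + z t) ^ 2)) volume 0 1 :=
    intervalIntegrable_div j5 (hxc.continuousOn.add hzc)
  have j7 : IntervalIntegrable (fun t => Real.pi ^ 2 * (2 * (x t * z t) + z t ^ 2)) volume 0 1 :=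
    ((j3.const_mul 2).add j4).const_mul _
  rw [Ev, Eu, intervalIntegral.integral_add j1 (((((j2.const_mul 2).add iZ02).sub j7).sub
      (iZ1.const_mul _)).add j6),
    intervalIntegral.integral_add ((((j2.const_mul 2).add iZ02).sub j7).sub (iZ1.const_mul _)) j6,
    intervalIntegral.integral_sub (((j2.const_mul 2).add iZ02).sub j7) (iZ1.const_mul _),
    intervalIntegral.integral_sub ((j2.const_mul 2).add iZ02) j7,
    intervalIntegral.integral_add (j2.const_mul 2) iZ02,
    intervalIntegral.integral_const_mul, intervalIntegral.integral_const_mul,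
    intervalIntegral.integral_const_mul,
    intervalIntegral.integral_add (j3.const_mul 2) j4, intervalIntegral.integral_const_mul,
    hparts, hZ1]
  ring

end

end Pool.Agent.Taut
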